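import Pool.Agent.K1H11.NS.Duh

open MeasureTheory Set Filter Topology
open scoped ENNReal NNReal

namespace Pool.Agent.K1H11.NS

lemma summ_int : Summable fun n : ℤ => 1 / (1 + |(n : ℝ)|) ^ 2 := by
  have h1 : Summable fun n : ℕ => 1 / (1 + (n : ℝ)) ^ 2 := by
    have h2 : Summable fun n : ℕ => 1 / ((n : ℝ)) ^ 2 := Real.summable_one_div_nat_pow.2 (by norm_num)
    have h3 := (summable_nat_add_iff 1).2 h2
    refine h3.congr fun n => ?_
    push_cast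
    rw [add_comm]
  apply Summable.of_nat_of_neg
  · simpa using h1
  · simpa using h1

def eqv : K ≃ ℤ × ℤ × ℤ where
  toFun k := (k 0, k 1, k 2)
  invFun p := ![p.1, p.2.1, p.2.2]
  left_inv k := by funext i; fin_cases i <;> rfl
  right_inv p := rfl

lemma pw_pos (k : K) : 0 < pw k := by have := l1_nonneg k; unfold pw; linarith

lemma one_le_pw (k : K) : 1 ≤ pw k := by have := l1_nonneg k; unfold pw; linarith

lemma summ_pw : Summable fun k : K => 1 / pw k ^ 6 := by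
  have h := summ_int
  have hn : (0 : ℤ → ℝ) ≤ fun n : ℤ => 1 / (1 + |(n : ℝ)|) ^ 2 := fun n => by
    simp only [Pi.zero_apply]; positivity
  have h2 := h.mul_of_nonneg h hn hn
  have h3 := h.mul_of_nonneg h2 hn (fun p => by
    simp only [Pi.zero_apply]; positivity)
  rw [← eqv.symm.summable_iff]
  refine h3.of_nonneg_of_le (fun p => ?_) fun p => ?_
  · simp only [Function.comp_apply]
    have := pw_pos (eqv.symm p)
    positivity
  have e : eqv.symm p = ![p.1, p.2.1, p.2.2] := rfl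
  rw [Function.comp_apply, e]
  have e2 : pw ![p.1, p.2.1, p.2.2] = 1 + (|(p.1 : ℝ)| + |(p.2.1 : ℝ)| + |(p.2.2 : ℝ)|) := by
    simp only [pw, l1, Fin.sum_univ_three]
    simp
  rw [e2]
  have ha := abs_nonneg (p.1 : ℝ)
  have hb := abs_nonneg (p.2.1 : ℝ)
  have hc := abs_nonneg (p.2.2 : ℝ)
  set x := |(p.1 : ℝ)|
  set y := |(p.2.1 : ℝ)|
  set z := |(p.2.2 : ℝ)|
  show 1 / (1 + (x + y + z)) ^ 6 ≤ 1 / (1 + x) ^ 2 * (1 / (1 + y) ^ 2 * (1 / (1 + z) ^ 2))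
  rw [one_div_mul_one_div, one_div_mul_one_div]
  apply one_div_le_one_div_of_le (by positivity)
  calc (1 + x) ^ 2 * ((1 + y) ^ 2 * (1 + z) ^ 2)
      ≤ (1 + (x + y + z)) ^ 2 * ((1 + (x + y + z)) ^ 2 * (1 + (x + y + z)) ^ 2) := by
        gcongr <;> linarith
    _ = _ := by ring

lemma summ_nk {a : Wt} (ha : Sup a) : Summable fun k : K => nk k / om a k := by
  obtain ⟨C, hC, h⟩ := ha.sup 7
  refine (summ_pw.mul_left C).of_nonneg_of_le (fun k => div_nonneg (nk_nonneg k) (om_pos a k).le)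
    fun k => ?_
  have h1 := om_pos a k
  have h2 := pw_pos k
  have h3 : nk k ≤ pw k := by have := nk_le_l1 k; unfold pw; linarith
  rw [mul_one_div, div_le_div_iff₀ h1 (by positivity)]
  calc nk k * pw k ^ 6 ≤ pw k * pw k ^ 6 := by gcongr
    _ = pw k ^ 7 := by ring
    _ ≤ _ := h k

/-- Dominated families. -/
def Dom (u : Fam) : Prop := ∃ b : K → ℝ, Summable b ∧ ∀ k t, ‖u k t‖ ≤ b k

lemma Dom.sn {u : Fam} (h : Dom u) (t : ℝ) : SN (at' u t) := by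
  obtain ⟨b, hb, h⟩ := h
  exact hb.of_nonneg_of_le (fun _ => norm_nonneg _) fun k => h k t

lemma Dom.add {u v : Fam} (hu : Dom u) (hv : Dom v) : Dom (u + v) := by
  obtain ⟨b, hb, h⟩ := hu
  obtain ⟨b', hb', h'⟩ := hv
  exact ⟨fun k => b k + b' k, hb.add hb', fun k t => (norm_add_le _ _).trans (add_le_add (h k t) (h' k t))⟩

/-- The nonlinear term of a family. -/
noncomputable def Bt (u : Fam) : Fam := fun k t => Bf (at' u t) (at' u t) k

lemma cv_cont {u v : Fam} (hu : CF u) (hv : CF v) (hu' : Dom u) (hv' : Dom v) (k : K) (i j : Fin 3) :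
    Continuous fun t => cv (at' u t) (at' v t) k i j := by
  obtain ⟨b, hb, h⟩ := hu'
  obtain ⟨b', hb', h'⟩ := hv'
  have hb0 : ∀ k, 0 ≤ b k := fun k => (norm_nonneg _).trans (h k 0)
  have hb0' : ∀ k, 0 ≤ b' k := fun k => (norm_nonneg _).trans (h' k 0)
  unfold cv at'
  refine continuous_tsum (u := fun l => b l * ∑' l', b' l') (fun l => ?_) (hb.mul_right _) fun l t => ?_
  · exact ((continuous_apply i).comp (hu l)).mul ((continuous_apply j).comp (hv (k - l)))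
  · rw [norm_mul]
    apply mul_le_mul ((norm_le_pi_norm _ i).trans (h l t)) _ (norm_nonneg _) (hb0 l)
    exact ((norm_le_pi_norm _ j).trans (h' (k - l) t)).trans (hb'.le_tsum (k - l) fun _ _ => hb0' _)

lemma BB_cont {u v : Fam} (hu : CF u) (hv : CF v) (hu' : Dom u) (hv' : Dom v) :
    CF (fun k t => Bf (at' u t) (at' v t) k) := by
  intro k
  refine continuous_pi fun i => ?_
  unfold Bf
  refine continuous_finsetSum _ fun j _ => continuous_finsetSum _ fun m _ => ?_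
  exact continuous_const.mul (cv_cont hu hv hu' hv' k j m)

lemma Bt_cont {u : Fam} (hu : CF u) (hu' : Dom u) : CF (Bt u) := BB_cont hu hu hu' hu'

lemma NW_one_le {x : K → C3} {b : K → ℝ} (hb : Summable b) (h : ∀ k, ‖x k‖ ≤ b k) :
    ∑' k, ‖x k‖ₑ ≤ ENNReal.ofReal (∑' k, b k) := by
  have hb0 : ∀ k, 0 ≤ b k := fun k => (norm_nonneg _).trans (h k)
  rw [ENNReal.ofReal_tsum_of_nonneg hb0 hb]
  refine ENNReal.tsum_le_tsum fun k => ?_
  rw [← ofReal_norm]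
  exact ENNReal.ofReal_le_ofReal (h k)

lemma norm_Bf_le {x : K → C3} {b : K → ℝ} (hb : Summable b) (h : ∀ k, ‖x k‖ ≤ b k) (k : K) :
    ‖Bf x x k‖ ≤ C0 * nk k * ((∑' k, b k) * ∑' k, b k) := by
  have hb0 : ∀ k, 0 ≤ b k := fun k => (norm_nonneg _).trans (h k)
  have hC := C0_pos
  have hn := nk_nonneg k
  have ht : 0 ≤ ∑' k, b k := tsum_nonneg hb0
  have h1 := enorm_Bf_le x x k
  have h2 : ∑' l, ‖x l‖ₑ * ‖x (k - l)‖ₑ ≤ ENNReal.ofReal ((∑' k, b k) * ∑' k, b k) := by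
    rw [ENNReal.ofReal_mul ht]
    calc ∑' l, ‖x l‖ₑ * ‖x (k - l)‖ₑ ≤ ∑' l, ‖x l‖ₑ * ∑' l', ‖x l'‖ₑ :=
          ENNReal.tsum_le_tsum fun l => mul_le_mul' le_rfl (ENNReal.le_tsum (k - l))
      _ = (∑' l, ‖x l‖ₑ) * ∑' l', ‖x l'‖ₑ := ENNReal.tsum_mul_right
      _ ≤ _ := mul_le_mul' (NW_one_le hb h) (NW_one_le hb h)
  have h3 : ‖Bf x x k‖ₑ ≤ ENNReal.ofReal (C0 * nk k * ((∑' k, b k) * ∑' k, b k)) := by
    rw [ENNReal.ofReal_mul (by positivity)]
    exact h1.trans (mul_le_mul' le_rfl h2)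
  rw [← ofReal_norm] at h3
  exact (ENNReal.ofReal_le_ofReal_iff (by positivity)).1 h3

/-- Pointwise bound from the weighted norm. -/
lemma norm_le_of_NWm {a : Wt} {M : ℝ} (hM : 0 ≤ M) {x : K → C3} (h0 : x 0 = 0)
    (h : NW (Wm a) x ≤ ENNReal.ofReal M) (k : K) : ‖x k‖ ≤ M * (nk k / om a k) := by
  by_cases hk : k = 0
  · subst hk; simp [h0, nk_zero]
  have hn := nk_pos hk
  have h1 : Wm a k * ‖x k‖ₑ ≤ ENNReal.ofReal M := (ENNReal.le_tsum k).trans h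
  unfold Wm at h1
  rw [← ofReal_norm, ← ENNReal.ofReal_mul (div_nonneg (om_pos a k).le hn.le)] at h1
  have h2 := (ENNReal.ofReal_le_ofReal_iff hM).1 h1
  have h4 := om_pos a k
  rw [div_mul_eq_mul_div, div_le_iff₀ hn] at h2
  rw [← mul_div_assoc, le_div_iff₀ h4]
  linarith

lemma dom_of_NWm {a : Wt} {M : ℝ} (ha : Sup a) (hM : 0 ≤ M) {u : Fam} (h0 : ∀ t, u 0 t = 0)
    (h : ∀ t, NW (Wm a) (at' u t) ≤ ENNReal.ofReal M) : Dom u :=
  ⟨_, (summ_nk ha).mul_left M, fun k t => norm_le_of_NWm hM (h0 t) (h t) k⟩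

/-- Lower semicontinuity. -/
lemma NW_le_liminf {W : K → ℝ≥0∞} (hW : ∀ k, W k ≠ ⊤) {x : ℕ → K → C3} {y : K → C3}
    (h : ∀ k, Tendsto (fun n => x n k) atTop (𝓝 (y k))) :
    NW W y ≤ liminf (fun n => NW W (x n)) atTop := by
  refine le_of_forall_lt fun c hc => ?_
  unfold NW at hc
  rw [ENNReal.tsum_eq_iSup_sum, lt_iSup_iff] at hc
  obtain ⟨s, hs⟩ := hc
  have h1 : Tendsto (fun n => ∑ k ∈ s, W k * ‖x n k‖ₑ) atTop (𝓝 (∑ k ∈ s, W k * ‖y k‖ₑ)) := by
    refine tendsto_finsetSum _ fun k _ => ?_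
    exact ENNReal.Tendsto.const_mul ((continuous_enorm.tendsto _).comp (h k)) (Or.inr (hW k))
  calc c < ∑ k ∈ s, W k * ‖y k‖ₑ := hs
    _ = liminf (fun n => ∑ k ∈ s, W k * ‖x n k‖ₑ) atTop := h1.liminf_eq.symm
    _ ≤ _ := liminf_le_liminf (Filter.Eventually.of_forall fun n => ENNReal.sum_le_tsum s)

lemma NW_le_of_tendsto {W : K → ℝ≥0∞} (hW : ∀ k, W k ≠ ⊤) {x : ℕ → K → C3} {y : K → C3}
    (h : ∀ k, Tendsto (fun n => x n k) atTop (𝓝 (y k))) {C : ℝ≥0∞} (hC : ∀ n, NW W (x n) ≤ C) :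
    NW W y ≤ C := by
  refine (NW_le_liminf hW h).trans ?_
  calc liminf (fun n => NW W (x n)) atTop ≤ liminf (fun _ : ℕ => C) atTop :=
        liminf_le_liminf (Filter.Eventually.of_forall hC)
    _ = C := liminf_const C

lemma Wm_ne_top (a : Wt) (k : K) : Wm a k ≠ ⊤ := ENNReal.ofReal_ne_top
lemma Wa_ne_top (a : Wt) (k : K) : Wa a k ≠ ⊤ := ENNReal.ofReal_ne_top

end Pool.Agent.K1H11.NS
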