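import Pool.Agent.K1H11.NS.Contr
import Pool.Agent.K1H11.NS.Summ

open MeasureTheory Set Filter Topology
open scoped ENNReal NNReal

namespace Pool.Agent.K1H11.NS

lemma Duh_sub {c : ℝ} {F F' : Fam} (hF : CF F) (hF' : CF F') : Duh c (F - F') = Duh c F - Duh c F' := by
  funext k t
  simp only [Duh, Pi.sub_apply]
  rw [← intervalIntegral.integral_sub]
  · refine intervalIntegral.integral_congr fun s _ => ?_
    simp only [smul_sub]
  · apply Continuous.intervalIntegrable
    have := hF k
    fun_prop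
  · apply Continuous.intervalIntegrable
    have := hF' k
    fun_prop

lemma Duh_add {c : ℝ} {F F' : Fam} (hF : CF F) (hF' : CF F') : Duh c (F + F') = Duh c F + Duh c F' := by
  funext k t
  simp only [Duh, Pi.add_apply]
  rw [← intervalIntegral.integral_add]
  · refine intervalIntegral.integral_congr fun s _ => ?_
    simp only [smul_add]
  · apply Continuous.intervalIntegrable
    have := hF k
    fun_prop
  · apply Continuous.intervalIntegrable
    have := hF' k
    fun_prop

lemma LF_add_le {g : ℝ → ℝ} (hg : Monotone g) {a : Wt} {x y : Fam} (hx : CF x) (hy : CF y) :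
    LF g a (x + y) ≤ LF g a x + LF g a y := by
  have hgm : Measurable fun t => ENNReal.ofReal (Real.exp (-g t)) :=
    ENNReal.measurable_ofReal.comp (Real.measurable_exp.comp hg.measurable.neg)
  unfold LF
  refine le_trans (LN_mono fun t _ => ?_) (LN_add_le (hgm.mul (NW_meas _ hx)) (hgm.mul (NW_meas _ hy)))
  rw [← mul_add]
  exact mul_le_mul' le_rfl (NW_add_le _ _ _)

/-- Families satisfying the reality condition. -/
def SymF (u : Fam) : Prop := ∀ t, Sym (at' u t)

lemma Duh_sym {c : ℝ} {F : Fam} (h : SymF F) (hF : CF F) : SymF (Duh c F) := by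
  intro t k i
  simp only [at', Duh]
  have e1 : ∀ κ : K, (∫ s in (0 : ℝ)..(max t 0), Real.exp (-(c * sq κ * (max t 0 - s))) • F κ s) i
      = ∫ s in (0 : ℝ)..(max t 0), (Real.exp (-(c * sq κ * (max t 0 - s))) • F κ s) i := by
    intro κ
    have hint : IntervalIntegrable (fun s => Real.exp (-(c * sq κ * (max t 0 - s))) • F κ s)
        volume 0 (max t 0) := by
      apply Continuous.intervalIntegrable
      have := hF κ
      fun_prop
    exact ((ContinuousLinearMap.proj (R := ℝ) (φ := fun _ : Fin 3 => ℂ) i).intervalIntegral_comp_comm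
      hint).symm
  rw [e1, e1]
  have e2 : ∀ s, (Real.exp (-(c * sq (-k) * (max t 0 - s))) • F (-k) s) i
      = star ((Real.exp (-(c * sq k * (max t 0 - s))) • F k s) i) := by
    intro s
    simp only [sq_neg, Pi.smul_apply, star_smul, star_trivial]
    congr 1
    exact h s k i
  simp only [e2]
  rw [intervalIntegral.integral_of_le (le_max_right t 0), intervalIntegral.integral_of_le (le_max_right t 0)]
  exact integral_conj

lemma Bt_sym {u : Fam} (h : SymF u) : SymF (Bt u) := fun t => Bf_sym (h t) (h t)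

/-- The iteration. -/
noncomputable def It (c : ℝ) (U FE : Fam) : ℕ → Fam
  | 0 => 0
  | n + 1 => Duh c (FE + (Bt (U + It c U FE n) - Bt U))

variable {c D Lam ρ : ℝ}

lemma ofReal_half_pow (n : ℕ) (x : ℝ) (_hx : 0 ≤ x) :
    (1 / 2) * ENNReal.ofReal (x * (1 / 2) ^ n) = ENNReal.ofReal (x * (1 / 2) ^ (n + 1)) := by
  have : (1 / 2 : ℝ≥0∞) = ENNReal.ofReal (1 / 2) := by
    rw [ENNReal.ofReal_div_of_pos (by norm_num)]
    simp
  rw [this, ← ENNReal.ofReal_mul (by norm_num)]
  congr 1
  ring

structure Inv (c : ℝ) (a : Wt) (M ρ' : ℝ) (g : ℝ → ℝ) (R : ℕ → Fam) (n : ℕ) : Prop where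
  cf : CF (R n)
  z : ∀ t, R n 0 t = 0
  nm : ∀ t, NW (Wm a) (at' (R n) t) ≤ ENNReal.ofReal (2 * M * (1 - (1 / 2) ^ n))
  lf : LF g a (R n) ≤ ENNReal.ofReal (ρ' * (1 - (1 / 2) ^ n))
  lfd : LF g a (R (n + 1) - R n) ≤ ENNReal.ofReal (ρ' / 2 * (1 / 2) ^ n)
  nmd : ∀ t, NW (Wm a) (at' (R (n + 1) - R n) t) ≤ ENNReal.ofReal (M * (1 / 2) ^ n)

lemma inv_all (hp : Par c D Lam ρ) {a : Wt} (ha : Sup a) {A : ℝ → ℝ} (hA : Continuous A)
    (hA0 : ∀ t, 0 ≤ A t) (hAi : LN (fun t => ENNReal.ofReal (A t)) ≤ ENNReal.ofReal D)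
    {U FE : Fam} (hU : CF U) (hUd : Dom U)
    (hUA : ∀ t, 0 < t → NW (Wa a) (at' U t) ≤ ENNReal.ofReal (A t))
    (hFE : CF FE) (hFE0 : ∀ t, FE 0 t = 0) {η : ℝ} (hη : 0 ≤ η) (hη2 : η ^ 2 ≤ c * (ρ / 2) ^ 2)
    (hFEi : ∫⁻ s in Ioi 0, NW (Wm a) (at' FE s) ≤ ENNReal.ofReal η) (n : ℕ) :
    Inv c a (η + Real.exp (Lam * D ^ 2) * (3 * C0 * D) * ρ) ρ (gw Lam A) (It c U FE) n := by
  have hc := hp.hc
  have hρ := hp.hρ
  have hD := hp.hD
  have hL := hp.hL
  have hC := C0_pos
  set g := gw Lam A
  have hg : Monotone g := gw_mono hL.le hA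
  set E := Real.exp (Lam * D ^ 2) * (3 * C0 * D)
  have hE : 0 < E := by positivity
  set M := η + E * ρ
  have hM : 0 < M := by positivity
  set R := It c U FE
  have hR0 : R 0 = 0 := rfl
  have hmax : ∀ (F : Fam) (W : K → ℝ≥0∞) t, NW W (at' (Duh c F) t) = NW W (at' (Duh c F) (max t 0)) := by
    intro F W t
    unfold NW at'
    simp only [Duh_max]
  -- auxiliary: forcing terms
  have hdom : ∀ n, CF (R n) → (∀ t, R n 0 t = 0) →
      (∀ t, NW (Wm a) (at' (R n) t) ≤ ENNReal.ofReal (2 * M * (1 - (1 / 2) ^ n))) → Dom (R n) := by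
    intro n _ h0 h
    refine dom_of_NWm ha (M := 2 * M) (by positivity) h0 fun t => (h t).trans ?_
    apply ENNReal.ofReal_le_ofReal
    have : (0 : ℝ) ≤ (1 / 2) ^ n := by positivity
    nlinarith
  have hFc : ∀ n, CF (R n) → Dom (R n) → CF (FE + (Bt (U + R n) - Bt U)) := by
    intro n h1 h2 k
    have e1 : CF (U + R n) := fun k => (hU k).add (h1 k)
    exact (hFE k).add ((Bt_cont e1 (hUd.add h2) k).sub (Bt_cont hU hUd k))
  have hF0 : ∀ n t, (FE + (Bt (U + R n) - Bt U)) 0 t = 0 := by
    intro n t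
    simp [Bt, Bf_zero, hFE0]
  have hstep : ∀ n, Inv c a M ρ g R n → CF (R (n + 1)) ∧ (∀ t, R (n + 1) 0 t = 0) := by
    intro n h
    have h2 := hdom n h.cf h.z h.nm
    have h3 := hFc n h.cf h2
    refine ⟨Duh_cont h3 c, fun t => ?_⟩
    exact at'_Duh_zero (hF0 n) t
  induction n with
  | zero =>
    have hk : R 1 = Duh c FE := by
      show Duh c (FE + (Bt (U + 0) - Bt U)) = _
      rw [add_zero, sub_self, add_zero]
    have hb : ∀ t, 0 ≤ t → NW (Wm a) (at' (Duh c FE) t) ≤ ENNReal.ofReal η := fun t ht =>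
      (NW_Duh_le hc.le _ hFE ht).trans ((lintegral_mono_set fun s hs => hs.1).trans hFEi)
    refine ⟨?_, ?_, ?_, ?_, ?_, ?_⟩
    · intro k; rw [hR0]; exact continuous_const
    · intro t; rw [hR0]; rfl
    · intro t; rw [hR0]
      have : NW (Wm a) (at' (0 : Fam) t) = 0 := NW_zero _
      rw [this]; exact zero_le
    · rw [hR0]
      have : LF g a (0 : Fam) = 0 := by
        unfold LF LN
        have h0 : ∀ t, NW (Wa a) (at' (0 : Fam) t) = 0 := fun t => NW_zero _
        simp [h0]
      rw [this]; exact zero_le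
    · rw [hR0, sub_zero, zero_add, hk]
      have h1 : ENNReal.ofReal c * LF g a (Duh c FE) ^ 2 ≤ ENNReal.ofReal η * ENNReal.ofReal η := by
        refine key_le hc hFE hFE0 hg (fun t ht => ?_) ?_
        · calc _ ≤ 1 * ∫⁻ s in Ioi 0, NW (Wm a) (at' FE s) := by
                apply mul_le_mul' _ (lintegral_mono_set fun s hs => hs.1)
                rw [ENNReal.ofReal_le_one, Real.exp_le_one_iff]
                have := gw_nonneg hL.le hA ht.le
                simp only [g]; linarith
            _ ≤ _ := by rw [one_mul]; exact hFEi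
        · refine le_trans (setLIntegral_mono' measurableSet_Ioi fun s hs => ?_) hFEi
          calc _ ≤ 1 * NW (Wm a) (at' FE s) := by
                apply mul_le_mul' _ le_rfl
                rw [ENNReal.ofReal_le_one, Real.exp_le_one_iff]
                have := gw_nonneg hL.le hA (le_of_lt hs)
                simp only [g]; linarith
            _ = _ := one_mul _
      have h2 : ENNReal.ofReal c * LF g a (Duh c FE) ^ 2 ≤ ENNReal.ofReal c * ENNReal.ofReal (ρ / 2) ^ 2 := by
        refine h1.trans ?_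
        rw [← ENNReal.ofReal_mul hη, ← ENNReal.ofReal_pow (by positivity), ← ENNReal.ofReal_mul hc.le]
        apply ENNReal.ofReal_le_ofReal
        rw [← pow_two]; exact hη2
      have h3 : LF g a (Duh c FE) ^ 2 ≤ ENNReal.ofReal (ρ / 2) ^ 2 :=
        (ENNReal.mul_le_mul_iff_right (by simpa using hc) ENNReal.ofReal_ne_top).1 h2
      rw [← ENNReal.rpow_two, ← ENNReal.rpow_two] at h3
      simpa using (ENNReal.rpow_le_rpow_iff (by norm_num : (0 : ℝ) < 2)).1 h3
    · intro t
      rw [hR0, sub_zero, zero_add, hk, hmax]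
      refine (hb _ (le_max_right _ _)).trans (ENNReal.ofReal_le_ofReal ?_)
      simp only [pow_zero, mul_one, M]
      have : 0 ≤ E * ρ := by positivity
      linarith
  | succ n ih =>
    obtain ⟨hcf1, hz1⟩ := hstep n ih
    have hsum : R (n + 1) = R n + (R (n + 1) - R n) := by abel
    have hdn : CF (R (n + 1) - R n) := fun k => (hcf1 k).sub (ih.cf k)
    have hnm1 : ∀ t, NW (Wm a) (at' (R (n + 1)) t) ≤ ENNReal.ofReal (2 * M * (1 - (1 / 2) ^ (n + 1))) := by
      intro t
      have e : at' (R (n + 1)) t = at' (R n) t + at' (R (n + 1) - R n) t := by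
        funext k; simp [at']
      rw [e]
      refine (NW_add_le _ _ _).trans ((add_le_add (ih.nm t) (ih.nmd t)).trans ?_)
      have p1 : (1 / 2 : ℝ) ^ n ≤ 1 := pow_le_one₀ (by norm_num) (by norm_num)
      have p0 : (0 : ℝ) ≤ (1 / 2) ^ n := by positivity
      rw [← ENNReal.ofReal_add (by nlinarith) (by positivity)]
      apply ENNReal.ofReal_le_ofReal
      rw [pow_succ]
      apply le_of_eq; ring
    have hlf1 : LF g a (R (n + 1)) ≤ ENNReal.ofReal (ρ * (1 - (1 / 2) ^ (n + 1))) := by
      rw [hsum]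
      refine (LF_add_le hg ih.cf hdn).trans ((add_le_add ih.lf ih.lfd).trans ?_)
      have p1 : (1 / 2 : ℝ) ^ n ≤ 1 := pow_le_one₀ (by norm_num) (by norm_num)
      have p0 : (0 : ℝ) ≤ (1 / 2) ^ n := by positivity
      rw [← ENNReal.ofReal_add (by nlinarith) (by positivity)]
      apply ENNReal.ofReal_le_ofReal
      rw [pow_succ]
      apply le_of_eq; ring
    have hd0 := hdom n ih.cf ih.z ih.nm
    have hd1 := hdom (n + 1) hcf1 hz1 hnm1
    -- the difference
    set F0 := FE + (Bt (U + R n) - Bt U)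
    set F1 := FE + (Bt (U + R (n + 1)) - Bt U)
    have hF0c : CF F0 := hFc n ih.cf hd0
    have hF1c : CF F1 := hFc (n + 1) hcf1 hd1
    have hdiff : R (n + 1 + 1) - R (n + 1) = Duh c (F1 - F0) := by
      rw [Duh_sub hF1c hF0c]
      rfl
    have hFdc : CF (F1 - F0) := fun k => (hF1c k).sub (hF0c k)
    have hFd0 : ∀ t, (F1 - F0) 0 t = 0 := by
      intro t
      simp only [Pi.sub_apply, F1, F0, hF0, sub_self]
    have hb : ∀ s, 0 < s → NW (Wm a) (at' (F1 - F0) s) ≤
        ENNReal.ofReal C0 * (NW (Wa a) (at' (R (n + 1) - R n) s) * (2 * ENNReal.ofReal (A s) +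
          (NW (Wa a) (at' (R (n + 1)) s) + NW (Wa a) (at' (R n) s)))) := by
      intro s hs
      have s0 := hUd.sn s
      have s1 := hd0.sn s
      have s2 := hd1.sn s
      have e : at' (F1 - F0) s = Bf (at' (R (n + 1) - R n) s) (at' U s + at' (R (n + 1)) s)
          + Bf (at' U s + at' (R n) s) (at' (R (n + 1) - R n) s) := by
        have e1 : at' (F1 - F0) s = Bf (at' U s + at' (R (n + 1)) s) (at' U s + at' (R (n + 1)) s)
            - Bf (at' U s + at' (R n) s) (at' U s + at' (R n) s) := by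
          funext k
          have ea : at' (U + R (n + 1)) s = at' U s + at' (R (n + 1)) s := rfl
          have eb : at' (U + R n) s = at' U s + at' (R n) s := rfl
          simp only [at', Pi.sub_apply, F1, F0, Pi.add_apply, Bt]
          rw [ea, eb]
          abel
        rw [e1, Bf_diff (s0.add s2) (s0.add s1)]
        have : at' U s + at' (R (n + 1)) s - (at' U s + at' (R n) s) = at' (R (n + 1) - R n) s := by
          funext k; simp [at']
        rw [this]
      rw [e]
      calc _ ≤ NW (Wm a) (Bf (at' (R (n + 1) - R n) s) (at' U s + at' (R (n + 1)) s))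
          + NW (Wm a) (Bf (at' U s + at' (R n) s) (at' (R (n + 1) - R n) s)) := NW_add_le _ _ _
        _ ≤ ENNReal.ofReal C0 * (NW (Wa a) (at' (R (n + 1) - R n) s) *
              (ENNReal.ofReal (A s) + NW (Wa a) (at' (R (n + 1)) s)))
            + ENNReal.ofReal C0 * ((ENNReal.ofReal (A s) + NW (Wa a) (at' (R n) s)) *
              NW (Wa a) (at' (R (n + 1) - R n) s)) := by
            apply add_le_add
            · refine (NW_Bf_le ha.le _ _).trans (mul_le_mul' le_rfl (mul_le_mul' le_rfl ?_))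
              exact (NW_add_le _ _ _).trans (add_le_add (hUA s hs) le_rfl)
            · refine (NW_Bf_le ha.le _ _).trans (mul_le_mul' le_rfl (mul_le_mul' ?_ le_rfl))
              exact (NW_add_le _ _ _).trans (add_le_add (hUA s hs) le_rfl)
        _ = _ := by ring
    have hYm : Measurable fun s => NW (Wa a) (at' (R (n + 1)) s) + NW (Wa a) (at' (R n) s) :=
      (NW_meas _ hcf1).add (NW_meas _ ih.cf)
    have hgm : Measurable fun t => ENNReal.ofReal (Real.exp (-g t)) :=
      ENNReal.measurable_ofReal.comp (Real.measurable_exp.comp hg.measurable.neg)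
    have hYi : LN (fun s => ENNReal.ofReal (Real.exp (-g s)) *
        (NW (Wa a) (at' (R (n + 1)) s) + NW (Wa a) (at' (R n) s))) ≤ ENNReal.ofReal (2 * ρ) := by
      have h1 : LN (fun s => ENNReal.ofReal (Real.exp (-g s)) *
        (NW (Wa a) (at' (R (n + 1)) s) + NW (Wa a) (at' (R n) s))) ≤ LF g a (R (n + 1)) + LF g a (R n) := by
        unfold LF
        refine le_trans (le_of_eq ?_) (LN_add_le (hgm.mul (NW_meas _ hcf1)) (hgm.mul (NW_meas _ ih.cf)))
        congr 1
        funext s
        ring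
      refine h1.trans ((add_le_add hlf1 ih.lf).trans ?_)
      have p1 : (1 / 2 : ℝ) ^ n ≤ 1 := pow_le_one₀ (by norm_num) (by norm_num)
      have p0 : (0 : ℝ) ≤ (1 / 2) ^ n := by positivity
      have p2 : (1 / 2 : ℝ) ^ (n + 1) ≤ 1 := pow_le_one₀ (by norm_num) (by norm_num)
      have p3 : (0 : ℝ) ≤ (1 / 2) ^ (n + 1) := by positivity
      rw [← ENNReal.ofReal_add (by nlinarith) (by nlinarith)]
      apply ENNReal.ofReal_le_ofReal
      nlinarith
    have hcon := contr hp hA hA0 hAi hFdc hFd0 hdn hYm hYi hb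
    refine ⟨hcf1, hz1, hnm1, hlf1, ?_, ?_⟩
    · rw [hdiff]
      refine hcon.1.trans ?_
      rw [← ofReal_half_pow n (ρ / 2) (by positivity)]
      exact mul_le_mul' le_rfl ih.lfd
    · intro t
      rw [hdiff, hmax]
      refine (hcon.2 _ (le_max_right _ _)).trans ?_
      calc _ ≤ ENNReal.ofReal E * ENNReal.ofReal (ρ / 2 * (1 / 2) ^ n) := mul_le_mul' le_rfl ih.lfd
        _ = ENNReal.ofReal (E * (ρ / 2 * (1 / 2) ^ n)) := by rw [ENNReal.ofReal_mul hE.le]
        _ ≤ _ := by
            apply ENNReal.ofReal_le_ofReal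
            simp only [M]
            have p0 : (0 : ℝ) ≤ (1 / 2) ^ n := by positivity
            rw [pow_succ]
            nlinarith [mul_nonneg hη p0]

end Pool.Agent.K1H11.NS
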