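import Pool.Agent.K1H11.NS.Duh

open MeasureTheory Set Filter Topology
open scoped ENNReal NNReal

namespace Pool.Agent.K1H11.NS

/-- `L²(0,∞)` norm of an extended function. -/
noncomputable def LN (φ : ℝ → ℝ≥0∞) : ℝ≥0∞ := (∫⁻ t in Ioi 0, φ t ^ (2 : ℝ)) ^ (1 / 2 : ℝ)

lemma LN_mono {φ ψ : ℝ → ℝ≥0∞} (h : ∀ t, 0 < t → φ t ≤ ψ t) : LN φ ≤ LN ψ := by
  unfold LN
  apply ENNReal.rpow_le_rpow _ (by norm_num)
  exact setLIntegral_mono' measurableSet_Ioi fun t ht => ENNReal.rpow_le_rpow (h t ht) (by norm_num)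

lemma LN_add_le {φ ψ : ℝ → ℝ≥0∞} (hφ : Measurable φ) (hψ : Measurable ψ) :
    LN (fun t => φ t + ψ t) ≤ LN φ + LN ψ := by
  unfold LN
  exact ENNReal.lintegral_Lp_add_le hφ.aemeasurable hψ.aemeasurable (by norm_num)

lemma LN_const_mul (c : ℝ≥0∞) {φ : ℝ → ℝ≥0∞} (hφ : Measurable φ) :
    LN (fun t => c * φ t) = c * LN φ := by
  unfold LN
  simp_rw [ENNReal.mul_rpow_of_nonneg _ _ (by norm_num : (0 : ℝ) ≤ 2)]
  rw [lintegral_const_mul _ (hφ.pow_const _), ENNReal.mul_rpow_of_nonneg _ _ (by norm_num),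
    ← ENNReal.rpow_mul]
  norm_num

/-- Cauchy-Schwarz -/
lemma LN_cs {φ ψ : ℝ → ℝ≥0∞} (hφ : Measurable φ) (hψ : Measurable ψ) :
    ∫⁻ t in Ioi 0, φ t * ψ t ≤ LN φ * LN ψ := by
  have := ENNReal.lintegral_mul_le_Lp_mul_Lq (volume.restrict (Ioi (0 : ℝ)))
    Real.HolderConjugate.two_two hφ.aemeasurable hψ.aemeasurable
  exact this

/-- The weighted norm of a family. -/
noncomputable def LF (g : ℝ → ℝ) (a : Wt) (x : Fam) : ℝ≥0∞ :=
  LN fun t => ENNReal.ofReal (Real.exp (-g t)) * NW (Wa a) (at' x t)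

lemma LF_sq (g : ℝ → ℝ) (a : Wt) (x : Fam) : LF g a x ^ 2 =
    ∫⁻ t in Ioi 0, (ENNReal.ofReal (Real.exp (-g t)) * NW (Wa a) (at' x t)) *
      (ENNReal.ofReal (Real.exp (-g t)) * NW (Wa a) (at' x t)) := by
  unfold LF LN
  rw [← ENNReal.rpow_two, ← ENNReal.rpow_mul]
  norm_num
  refine lintegral_congr fun t => ?_
  rw [pow_two]

lemma at'_Duh_zero {c : ℝ} {F : Fam} (h0 : ∀ t, F 0 t = 0) (t : ℝ) : at' (Duh c F) t 0 = 0 := by
  simp [at', Duh, h0]

/-- Basic estimate. -/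
lemma key_le {c : ℝ} (hc : 0 < c) {a : Wt} {F : Fam} (hF : CF F) (h0 : ∀ t, F 0 t = 0)
    {g : ℝ → ℝ} (hg : Monotone g) {P Q : ℝ≥0∞}
    (hP : ∀ t, 0 < t → ENNReal.ofReal (Real.exp (-g t)) * ∫⁻ s in Ioc 0 t, NW (Wm a) (at' F s) ≤ P)
    (hQ : ∫⁻ s in Ioi 0, ENNReal.ofReal (Real.exp (-g s)) * NW (Wm a) (at' F s) ≤ Q) :
    ENNReal.ofReal c * LF g a (Duh c F) ^ 2 ≤ P * Q := by
  have hgm : Measurable fun t => ENNReal.ofReal (Real.exp (-g t)) :=
    ENNReal.measurable_ofReal.comp (Real.measurable_exp.comp hg.measurable.neg)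
  have h1 : LF g a (Duh c F) ^ 2 ≤
      P * ∫⁻ t in Ioi 0, ENNReal.ofReal (Real.exp (-g t)) * NW (Wp a) (at' (Duh c F) t) := by
    have mm : Measurable fun t => ENNReal.ofReal (Real.exp (-g t)) * NW (Wp a) (at' (Duh c F) t) :=
      hgm.mul (NW_meas _ (Duh_cont hF c))
    rw [LF_sq, ← lintegral_const_mul _ mm]
    refine setLIntegral_mono' measurableSet_Ioi fun t ht => ?_
    have ht' : (0 : ℝ) < t := ht
    calc ENNReal.ofReal (Real.exp (-g t)) * NW (Wa a) (at' (Duh c F) t) *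
          (ENNReal.ofReal (Real.exp (-g t)) * NW (Wa a) (at' (Duh c F) t))
        = ENNReal.ofReal (Real.exp (-g t)) * ENNReal.ofReal (Real.exp (-g t)) *
          (NW (Wa a) (at' (Duh c F) t) * NW (Wa a) (at' (Duh c F) t)) := by ring
      _ ≤ ENNReal.ofReal (Real.exp (-g t)) * ENNReal.ofReal (Real.exp (-g t)) *
          (NW (Wm a) (at' (Duh c F) t) * NW (Wp a) (at' (Duh c F) t)) :=
          mul_le_mul' le_rfl (NW_interp (at'_Duh_zero h0 t))
      _ = (ENNReal.ofReal (Real.exp (-g t)) * NW (Wm a) (at' (Duh c F) t)) *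
          (ENNReal.ofReal (Real.exp (-g t)) * NW (Wp a) (at' (Duh c F) t)) := by ring
      _ ≤ P * (ENNReal.ofReal (Real.exp (-g t)) * NW (Wp a) (at' (Duh c F) t)) := by
          apply mul_le_mul' _ le_rfl
          exact (mul_le_mul' le_rfl (NW_Duh_le hc.le (Wm a) hF ht'.le)).trans (hP t ht')
  calc ENNReal.ofReal c * LF g a (Duh c F) ^ 2
      ≤ ENNReal.ofReal c * (P * ∫⁻ t in Ioi 0,
        ENNReal.ofReal (Real.exp (-g t)) * NW (Wp a) (at' (Duh c F) t)) := mul_le_mul' le_rfl h1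
    _ = P * (ENNReal.ofReal c * ∫⁻ t in Ioi 0,
        ENNReal.ofReal (Real.exp (-g t)) * NW (Wp a) (at' (Duh c F) t)) := by ring
    _ ≤ P * Q := mul_le_mul' le_rfl ((L1b hc hF hg).trans hQ)

/-- The time weight. -/
noncomputable def gw (Lam : ℝ) (A : ℝ → ℝ) (t : ℝ) : ℝ := Lam * ∫ s in (0 : ℝ)..t, A s ^ 2

lemma gw_mono {Lam : ℝ} (hL : 0 ≤ Lam) {A : ℝ → ℝ} (hA : Continuous A) : Monotone (gw Lam A) := by
  intro s t hst
  unfold gw
  apply mul_le_mul_of_nonneg_left _ hL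
  have h1 : ∫ u in (0 : ℝ)..t, A u ^ 2 = (∫ u in (0 : ℝ)..s, A u ^ 2) + ∫ u in s..t, A u ^ 2 := by
    rw [intervalIntegral.integral_add_adjacent_intervals] <;>
    exact (hA.pow 2).intervalIntegrable _ _
  rw [h1]
  have : 0 ≤ ∫ u in s..t, A u ^ 2 := intervalIntegral.integral_nonneg hst fun u _ => sq_nonneg _
  linarith

lemma gw_zero (Lam : ℝ) (A : ℝ → ℝ) : gw Lam A 0 = 0 := by simp [gw]

lemma gw_nonneg {Lam : ℝ} (hL : 0 ≤ Lam) {A : ℝ → ℝ} (hA : Continuous A) {t : ℝ} (ht : 0 ≤ t) :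
    0 ≤ gw Lam A t := by
  rw [← gw_zero Lam A]; exact gw_mono hL hA ht

lemma gw_deriv (Lam : ℝ) {A : ℝ → ℝ} (hA : Continuous A) (t : ℝ) :
    HasDerivAt (gw Lam A) (Lam * A t ^ 2) t := by
  unfold gw
  exact (intervalIntegral.integral_hasDerivAt_right ((hA.pow 2).intervalIntegrable _ _)
    (hA.pow 2).aestronglyMeasurable.stronglyMeasurableAtFilter (hA.pow 2).continuousAt).const_mul _

lemma kernel_le {Lam : ℝ} (hL : 0 < Lam) {A : ℝ → ℝ} (hA : Continuous A) {t : ℝ} (ht : 0 ≤ t) :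
    ∫⁻ s in Ioc 0 t, ENNReal.ofReal (Real.exp (-(gw Lam A t - gw Lam A s)) * |A s|) ^ (2 : ℝ)
      ≤ ENNReal.ofReal (1 / (2 * Lam)) := by
  set g := gw Lam A
  have hgd : ∀ s, HasDerivAt g (Lam * A s ^ 2) s := gw_deriv Lam hA
  have hgc : Continuous g := continuous_iff_continuousAt.2 fun s => (hgd s).continuousAt
  have e1 : ∀ s, ENNReal.ofReal (Real.exp (-(g t - g s)) * |A s|) ^ (2 : ℝ)
      = ENNReal.ofReal (Real.exp (-(2 * (g t - g s))) * A s ^ 2) := by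
    intro s
    have h2 : Real.exp (-(g t - g s)) ^ 2 = Real.exp (-(2 * (g t - g s))) := by
      rw [← Real.exp_nat_mul]; congr 1; push_cast; ring
    rw [ENNReal.rpow_two, ← ENNReal.ofReal_pow (by positivity), mul_pow, sq_abs, h2]
  simp only [e1]
  have hc : Continuous fun s => Real.exp (-(2 * (g t - g s))) * A s ^ 2 := by fun_prop
  rw [← ofReal_integral_eq_lintegral_ofReal]
  · apply ENNReal.ofReal_le_ofReal
    rw [← intervalIntegral.integral_of_le ht]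
    have hd : ∀ s ∈ uIcc 0 t, HasDerivAt (fun s => 1 / (2 * Lam) * Real.exp (-(2 * (g t - g s))))
        (Real.exp (-(2 * (g t - g s))) * A s ^ 2) s := by
      intro s _
      have h1 : HasDerivAt (fun s => -(2 * (g t - g s))) (2 * (Lam * A s ^ 2)) s := by
        have := (((hgd s).const_sub (g t)).const_mul 2).fun_neg
        refine this.congr_deriv ?_; ring
      have h2 := (h1.exp).const_mul (1 / (2 * Lam))
      refine h2.congr_deriv ?_
      field_simp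
    rw [intervalIntegral.integral_eq_sub_of_hasDerivAt hd (hc.intervalIntegrable _ _)]
    simp only [sub_self, mul_zero, neg_zero, Real.exp_zero, mul_one]
    have : 0 ≤ 1 / (2 * Lam) * Real.exp (-(2 * (g t - g 0))) := by positivity
    linarith
  · exact (hc.integrableOn_Icc (a := 0) (b := t)).mono_set Ioc_subset_Icc_self
  · exact Filter.Eventually.of_forall fun s => by positivity

end Pool.Agent.K1H11.NS
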