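import Pool.Agent.K1H11.NS.Summ

/-!
# Weights which grow faster than every polynomial
-/

open MeasureTheory Set Filter Topology
open scoped ENNReal NNReal

namespace Pool.Agent.K1H11.NS

/-- the logarithm of the weight `∏ (1 + δ m s)` -/
noncomputable def lgw (δ : ℕ → ℝ) (s : ℝ) : ℝ := ∑' m, Real.log (1 + δ m * s)

section
variable {δ : ℕ → ℝ} (h0 : ∀ m, 0 < δ m) (h1 : ∀ m, δ m ≤ 1) (hs : Summable δ)
include h0

lemma log_nonneg' {s : ℝ} (hs0 : 0 ≤ s) (m : ℕ) : 0 ≤ Real.log (1 + δ m * s) := by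
  apply Real.log_nonneg
  have := mul_nonneg (h0 m).le hs0
  linarith

include hs

lemma summ_lgw {s : ℝ} (hs0 : 0 ≤ s) : Summable fun m => Real.log (1 + δ m * s) := by
  refine (hs.mul_right s).of_nonneg_of_le (log_nonneg' h0 hs0) fun m => ?_
  have h := mul_nonneg (h0 m).le hs0
  have := Real.log_le_sub_one_of_pos (show 0 < 1 + δ m * s by linarith)
  linarith

/-- The weight `∏ (1 + δ m |k|₁)`. -/
noncomputable def Wt.ofSeq : Wt where
  f k := Real.exp (lgw δ (l1 k))
  one_le k := Real.one_le_exp (tsum_nonneg (log_nonneg' h0 (l1_nonneg k)))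
  neg k := by rw [l1_neg]
  sub k l := by
    rw [← Real.exp_add]
    apply Real.exp_le_exp.2
    unfold lgw
    have ha := l1_nonneg l
    have hb := l1_nonneg (k - l)
    rw [← (summ_lgw h0 hs ha).tsum_add (summ_lgw h0 hs hb)]
    refine (summ_lgw h0 hs (l1_nonneg k)).tsum_le_tsum (fun m => ?_)
      ((summ_lgw h0 hs ha).add (summ_lgw h0 hs hb))
    have h2 := h0 m
    have h3 := l1_add l (k - l)
    rw [add_sub_cancel] at h3
    rw [← Real.log_mul (by positivity) (by positivity)]
    apply Real.log_le_log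
    · have := l1_nonneg k
      positivity
    · nlinarith [mul_nonneg (mul_nonneg h2.le ha) (mul_nonneg h2.le hb),
        mul_le_mul_of_nonneg_left h3 h2.le]

/-- The partial products. -/
noncomputable def pp (δ : ℕ → ℝ) (M : ℕ) (k : K) : ℝ := ∏ m ∈ Finset.range M, (1 + δ m * l1 k)

omit hs in
lemma pp_pos (M : ℕ) (k : K) : 0 < pp δ M k := by
  refine Finset.prod_pos fun m _ => ?_
  have := mul_nonneg (h0 m).le (l1_nonneg k)
  linarith

lemma exp_sum_le (M : ℕ) (k : K) : pp δ M k ≤ om (Wt.ofSeq h0 hs) k := by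
  show _ ≤ Real.exp (lgw δ (l1 k))
  have e : pp δ M k = Real.exp (∑ m ∈ Finset.range M, Real.log (1 + δ m * l1 k)) := by
    rw [Real.exp_sum]
    refine Finset.prod_congr rfl fun m _ => ?_
    have := mul_nonneg (h0 m).le (l1_nonneg k)
    rw [Real.exp_log (by linarith)]
  rw [e]
  apply Real.exp_le_exp.2
  exact (summ_lgw h0 hs (l1_nonneg k)).sum_le_tsum _ fun m _ => log_nonneg' h0 (l1_nonneg k) m

lemma tend_pp (k : K) : Tendsto (fun M => pp δ M k) atTop (𝓝 (om (Wt.ofSeq h0 hs) k)) := by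
  have e : ∀ M, pp δ M k = Real.exp (∑ m ∈ Finset.range M, Real.log (1 + δ m * l1 k)) := by
    intro M
    rw [Real.exp_sum]
    refine Finset.prod_congr rfl fun m _ => ?_
    have := mul_nonneg (h0 m).le (l1_nonneg k)
    rw [Real.exp_log (by linarith)]
  simp_rw [e]
  exact (Real.continuous_exp.tendsto _).comp (summ_lgw h0 hs (l1_nonneg k)).hasSum.tendsto_sum_nat

include h1

lemma sup_ofSeq : Sup (Wt.ofSeq h0 hs) := by
  refine ⟨trivial, fun M => ?_⟩
  set P := ∏ m ∈ Finset.range M, δ m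
  have hP : 0 < P := Finset.prod_pos fun m _ => h0 m
  refine ⟨P⁻¹, (inv_pos.2 hP).le, fun k => ?_⟩
  have h2 : P * pw k ^ M ≤ pp δ M k := by
    have e : P * pw k ^ M = ∏ m ∈ Finset.range M, (δ m * pw k) := by
      rw [Finset.prod_mul_distrib, Finset.prod_const, Finset.card_range]
    rw [e]
    refine Finset.prod_le_prod (fun m _ => mul_nonneg (h0 m).le (pw_pos k).le) fun m _ => ?_
    unfold pw
    have := h1 m
    linarith
  rw [inv_mul_eq_div, le_div_iff₀ hP]
  calc pw k ^ M * P = P * pw k ^ M := mul_comm _ _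
    _ ≤ _ := h2.trans (exp_sum_le h0 hs M k)

omit hs in
lemma pp_le_pw (M : ℕ) (k : K) : pp δ M k ≤ pw k ^ M := by
  unfold pp
  calc _ ≤ ∏ _m ∈ Finset.range M, pw k := by
        refine Finset.prod_le_prod (fun m _ => ?_) fun m _ => ?_
        · have := mul_nonneg (h0 m).le (l1_nonneg k)
          linarith
        · unfold pw
          have := mul_le_mul_of_nonneg_right (h1 m) (l1_nonneg k)
          linarith
    _ = _ := by rw [Finset.prod_const, Finset.card_range]

/-- Sums with the weight. -/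
lemma om_sum_le {g : K → ℝ} (hg : ∀ k, 0 ≤ g k) (hm : ∀ m : ℕ, Summable fun k => pw k ^ m * g k)
    {e : ℕ → ℝ} (he0 : ∀ m, 0 ≤ e m) (he : Summable e)
    (h : ∀ m, δ m * ∑' k, pw k ^ (m + 1) * g k ≤ e m) :
    Summable (fun k => om (Wt.ofSeq h0 hs) k * g k) ∧
      ∑' k, om (Wt.ofSeq h0 hs) k * g k ≤ ∑' k, g k + ∑' m, e m := by
  have hsm : ∀ M, Summable fun k => pp δ M k * g k := fun M =>
    (hm M).of_nonneg_of_le (fun k => mul_nonneg (pp_pos h0 M k).le (hg k))
      fun k => mul_le_mul_of_nonneg_right (pp_le_pw h0 h1 M k) (hg k)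
  have hb : ∀ M, ∑' k, pp δ M k * g k ≤ ∑' k, g k + ∑ m ∈ Finset.range M, e m := by
    intro M
    induction M with
    | zero => simp [pp]
    | succ M ih =>
      have e1 : ∀ k, pp δ (M + 1) k * g k = pp δ M k * g k + δ M * (l1 k * (pp δ M k * g k)) := by
        intro k
        unfold pp
        rw [Finset.prod_range_succ]; ring
      have hl : ∀ k, l1 k * (pp δ M k * g k) ≤ pw k ^ (M + 1) * g k := by
        intro k
        have h2 : l1 k ≤ pw k := by unfold pw; linarith
        have h3 := pp_le_pw h0 h1 M k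
        have h4 := hg k
        have h5 := l1_nonneg k
        have h6 := (pp_pos h0 M k).le
        have h7 := (pw_pos k).le
        calc l1 k * (pp δ M k * g k) ≤ pw k * (pw k ^ M * g k) := by gcongr
          _ = _ := by ring
      have hls : Summable fun k => l1 k * (pp δ M k * g k) :=
        (hm (M + 1)).of_nonneg_of_le (fun k => mul_nonneg (l1_nonneg k)
          (mul_nonneg (pp_pos h0 M k).le (hg k))) hl
      simp_rw [e1]
      rw [(hsm M).tsum_add (hls.mul_left _), tsum_mul_left, Finset.sum_range_succ]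
      have h7 : δ M * ∑' k, l1 k * (pp δ M k * g k) ≤ e M :=
        (mul_le_mul_of_nonneg_left (hls.tsum_le_tsum hl (hm (M + 1))) (h0 M).le).trans (h M)
      linarith
  have hfin : ∀ s : Finset K, ∑ k ∈ s, om (Wt.ofSeq h0 hs) k * g k ≤ ∑' k, g k + ∑' m, e m := by
    intro s
    have ht : Tendsto (fun M => ∑ k ∈ s, pp δ M k * g k) atTop
        (𝓝 (∑ k ∈ s, om (Wt.ofSeq h0 hs) k * g k)) :=
      tendsto_finsetSum _ fun k _ => (tend_pp h0 hs k).mul_const _
    refine le_of_tendsto ht (Eventually.of_forall fun M => ?_)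
    calc ∑ k ∈ s, pp δ M k * g k ≤ ∑' k, pp δ M k * g k :=
          (hsm M).sum_le_tsum _ fun k _ => mul_nonneg (pp_pos h0 M k).le (hg k)
      _ ≤ ∑' k, g k + ∑ m ∈ Finset.range M, e m := hb M
      _ ≤ _ := by
        have := he.sum_le_tsum (Finset.range M) fun m _ => he0 m
        linarith
  have hss : Summable (fun k => om (Wt.ofSeq h0 hs) k * g k) :=
    summable_of_sum_le (fun k => mul_nonneg (om_pos _ k).le (hg k)) hfin
  exact ⟨hss, hss.tsum_le_of_sum_le hfin⟩

end

/-- Rapidly decreasing families have finite, and nearly the same, sums with a suitable weight which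
grows faster than every polynomial. -/
lemma exists_weight {f : K → ℝ} (hf : ∀ k, 0 ≤ f k) (hm : ∀ m : ℕ, Summable fun k => pw k ^ m * f k)
    {η : ℝ} (hη : 0 < η) : ∃ a : Wt, Sup a ∧ Summable (fun k => om a k * (pw k * f k)) ∧
      Summable (fun k => om a k * f k) ∧ ∑' k, om a k * f k ≤ ∑' k, f k + η := by
  set F : ℕ → ℝ := fun m => ∑' k, pw k ^ (m + 2) * f k
  have hF0 : ∀ m, 0 ≤ F m := fun m => tsum_nonneg fun k => mul_nonneg (pow_pos (pw_pos k) _).le (hf k)
  set e : ℕ → ℝ := fun m => η / 2 * (1 / 2) ^ m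
  have he0 : ∀ m, 0 ≤ e m := fun m => by positivity
  have he : Summable e := (summable_geometric_of_lt_one (by norm_num) (by norm_num)).mul_left _
  have hes : ∑' m, e m = η := by
    rw [tsum_mul_left, tsum_geometric_of_lt_one (by norm_num) (by norm_num)]; ring
  set δ : ℕ → ℝ := fun m => min ((1 / 2) ^ m) (e m / (1 + F m))
  have h0 : ∀ m, 0 < δ m := fun m => lt_min (by positivity)
    (div_pos (by positivity) (by have := hF0 m; linarith))
  have h1 : ∀ m, δ m ≤ 1 := fun m => (min_le_left _ _).trans (pow_le_one₀ (by norm_num) (by norm_num))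
  have hs : Summable δ := (summable_geometric_of_lt_one (by norm_num : (0 : ℝ) ≤ 1 / 2)
    (by norm_num)).of_nonneg_of_le (fun m => (h0 m).le) fun m => min_le_left _ _
  have hδF : ∀ m, δ m * F m ≤ e m := by
    intro m
    have h2 : δ m ≤ e m / (1 + F m) := min_le_right _ _
    have h3 := hF0 m
    rw [le_div_iff₀ (by linarith)] at h2
    nlinarith [h0 m]
  have hlow : ∀ m, ∑' k, pw k ^ (m + 1) * f k ≤ F m := by
    intro m
    refine (hm (m + 1)).tsum_le_tsum (fun k => ?_) (hm (m + 2))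
    apply mul_le_mul_of_nonneg_right _ (hf k)
    exact pow_le_pow_right₀ (one_le_pw k) (by omega)
  have r1 := om_sum_le h0 h1 hs hf hm he0 he fun m =>
    (mul_le_mul_of_nonneg_left (hlow m) (h0 m).le).trans (hδF m)
  have hm2 : ∀ m : ℕ, Summable fun k => pw k ^ m * (pw k * f k) := by
    intro m
    refine (hm (m + 1)).congr fun k => ?_
    ring
  have r2 := om_sum_le h0 h1 hs (g := fun k => pw k * f k)
    (fun k => mul_nonneg (pw_pos k).le (hf k)) hm2 he0 he fun m => by
      refine le_trans (le_of_eq ?_) (hδF m)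
      simp only [F]
      congr 1
      refine tsum_congr fun k => ?_
      ring
  exact ⟨Wt.ofSeq h0 hs, sup_ofSeq h0 h1 hs, r2.1, r1.1, by rw [← hes]; exact r1.2⟩

/-- The square root of a weight. -/
noncomputable def Wt.sqrt (a : Wt) : Wt where
  f k := Real.sqrt (a.f k)
  one_le k := by
    rw [Real.one_le_sqrt]; exact a.one_le k
  neg k := by rw [a.neg]
  sub k l := by
    rw [← Real.sqrt_mul (by have := a.one_le l; linarith)]
    exact Real.sqrt_le_sqrt (a.sub k l)

lemma Wt.sqrt_sq (a : Wt) (k : K) : om a.sqrt k * om a.sqrt k = om a k :=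
  Real.mul_self_sqrt (by have := a.one_le k; linarith)

lemma Wt.sqrt_le (a : Wt) (k : K) : om a.sqrt k ≤ om a k := by
  rw [← a.sqrt_sq k]
  have := a.sqrt.one_le k
  show om a.sqrt k ≤ _
  have h : 1 ≤ om a.sqrt k := this
  nlinarith

lemma Sup.sqrt {a : Wt} (ha : Sup a) : Sup a.sqrt := by
  refine ⟨trivial, fun m => ?_⟩
  obtain ⟨C, hC, h⟩ := ha.sup (2 * m)
  refine ⟨Real.sqrt C, Real.sqrt_nonneg _, fun k => ?_⟩
  show _ ≤ Real.sqrt C * Real.sqrt (a.f k)
  rw [← Real.sqrt_mul hC]
  apply Real.le_sqrt_of_sq_le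
  rw [← pow_mul, mul_comm m 2]
  exact h k

end Pool.Agent.K1H11.NS
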