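import Pool.Agent.K1H11.NS.Late
import Pool.Agent.K1H11.NS.Weight

/-!
# Global solutions for smooth data which are small in the Lei-Lin norm
-/

open MeasureTheory Set Filter Topology
open scoped ENNReal NNReal

namespace Pool.Agent.K1H11.NS

lemma LN_le_LF {D Lam : ℝ} {a b : Wt} (hL : 0 ≤ Lam) (hD : 0 ≤ D) {A : ℝ → ℝ} (hA : Continuous A)
    (hA0 : ∀ t, 0 ≤ A t) (hAi : LN (fun t => ENNReal.ofReal (A t)) ≤ ENNReal.ofReal D)
    (hb : ∀ k, om b k ≤ om a k)
    {r : Fam} (hr : CF r) : LN (fun t => NW (Wa b) (at' r t)) ≤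
      ENNReal.ofReal (Real.exp (Lam * D ^ 2)) * LF (gw Lam A) a r := by
  have hg : Monotone (gw Lam A) := gw_mono hL hA
  unfold LF
  have hgm : Measurable fun t => ENNReal.ofReal (Real.exp (-gw Lam A t)) :=
    ENNReal.measurable_ofReal.comp (Real.measurable_exp.comp hg.measurable.neg)
  have mm : Measurable fun t => ENNReal.ofReal (Real.exp (-gw Lam A t)) * NW (Wa a) (at' r t) :=
    hgm.mul (NW_meas _ hr)
  rw [← LN_const_mul _ mm]
  refine LN_mono fun t ht => ?_
  rw [← mul_assoc, ← ENNReal.ofReal_mul (Real.exp_pos _).le, ← Real.exp_add]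
  calc NW (Wa b) (at' r t) ≤ 1 * NW (Wa a) (at' r t) := by
        rw [one_mul]; exact NW_mono (fun k => Wa_mono hb k) _
    _ ≤ _ := by
        apply mul_le_mul' _ le_rfl
        rw [ENNReal.one_le_ofReal]
        apply Real.one_le_exp
        have := gw_le hL hA hA0 hD hAi ht.le
        linarith

lemma Par.mono {c D Lam ρ ρ' : ℝ} (h : Par c D Lam ρ) (h0 : 0 < ρ') (hle : ρ' ≤ ρ) : Par c D Lam ρ' :=
  ⟨h.hc, h.hD, h.hL, h0, h.h1,
    (mul_le_mul_of_nonneg_left (by linarith) (Real.exp_pos _).le).trans h.h2,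
    (mul_le_mul_of_nonneg_left (by linarith) (Real.exp_pos _).le).trans h.h3⟩

/-- The heat flow. -/
noncomputable def Heat (c : ℝ) (V : K → C3) : Fam := fun k t => Real.exp (-(c * sq k * max t 0)) • V k

lemma Heat_cf (c : ℝ) (V : K → C3) : CF (Heat c V) := fun k => by
  unfold Heat
  have : Continuous fun t : ℝ => Real.exp (-(c * sq k * max t 0)) := by fun_prop
  exact this.smul continuous_const

lemma Heat_norm {c : ℝ} (hc : 0 < c) (V : K → C3) (k : K) (t : ℝ) : ‖Heat c V k t‖ ≤ ‖V k‖ := by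
  unfold Heat
  rw [norm_smul, Real.norm_of_nonneg (Real.exp_pos _).le]
  have h1 : Real.exp (-(c * sq k * max t 0)) ≤ 1 := by
    rw [Real.exp_le_one_iff]
    have := sq_nonneg' k
    have h2 : 0 ≤ max t 0 := le_max_right _ _
    have : 0 ≤ c * sq k * max t 0 := by positivity
    linarith
  exact mul_le_of_le_one_left (norm_nonneg _) h1

lemma Heat_sym {c : ℝ} {V : K → C3} (hV : Sym V) : SymF (Heat c V) := by
  intro t k i
  show Heat c V (-k) t i = star (Heat c V k t i)
  unfold Heat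
  rw [sq_neg]
  simp only [Pi.smul_apply, hV k i]
  rw [Complex.real_smul, Complex.real_smul, star_mul']
  congr 1
  exact (Complex.conj_ofReal _).symm

/-- `∫ ‖e^{ctΔ} V‖² dt` -/
lemma Heat_int {c : ℝ} (hc : 0 < c) {a : Wt} {V : K → C3} (h0 : V 0 = 0) :
    ∫⁻ t in Ioi 0, NW (Wa a) (at' (Heat c V) t) * NW (Wa a) (at' (Heat c V) t)
      ≤ NW (Wm a) V * (ENNReal.ofReal (1 / c) * NW (Wm a) V) := by
  have hcf := Heat_cf c V
  have hz : ∀ t, at' (Heat c V) t 0 = 0 := fun t => by simp [at', Heat, h0]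
  have h1 : ∀ t, NW (Wm a) (at' (Heat c V) t) ≤ NW (Wm a) V := by
    intro t
    refine ENNReal.tsum_le_tsum fun k => mul_le_mul' le_rfl ?_
    rw [← ofReal_norm, ← ofReal_norm]
    exact ENNReal.ofReal_le_ofReal (Heat_norm hc V k t)
  calc _ ≤ ∫⁻ t in Ioi 0, NW (Wm a) V * NW (Wp a) (at' (Heat c V) t) := by
        refine lintegral_mono fun t => ?_
        exact (NW_interp (hz t)).trans (mul_le_mul' (h1 t) le_rfl)
    _ = NW (Wm a) V * ∫⁻ t in Ioi 0, NW (Wp a) (at' (Heat c V) t) :=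
        lintegral_const_mul _ (NW_meas _ hcf)
    _ ≤ _ := by
        apply mul_le_mul' le_rfl
        unfold NW
        have mk : ∀ k, AEMeasurable (fun t => Wp a k * ‖at' (Heat c V) t k‖ₑ)
            (volume.restrict (Ioi 0)) := fun k =>
          (((hcf k).enorm.measurable).const_mul (Wp a k)).aemeasurable
        rw [lintegral_tsum mk, ← ENNReal.tsum_mul_left]
        refine ENNReal.tsum_le_tsum fun k => ?_
        by_cases hk : k = 0
        · subst hk
          simp [at', Heat, h0]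
        have hn := nk_pos hk
        have hlam : 0 < c * sq k := mul_pos hc (sq_pos hk)
        have e1 : ∫⁻ t in Ioi 0, Wp a k * ‖at' (Heat c V) t k‖ₑ
            = Wp a k * (ENNReal.ofReal (1 / (c * sq k)) * ‖V k‖ₑ) := by
          have m1 : Measurable fun t => ‖at' (Heat c V) t k‖ₑ := (hcf k).enorm.measurable
          rw [lintegral_const_mul _ m1]
          congr 1
          have e2 : ∫⁻ t in Ioi 0, ‖at' (Heat c V) t k‖ₑ
              = ∫⁻ t in Ioi 0, ENNReal.ofReal (Real.exp (-(c * sq k * (t - 0)))) * ‖V k‖ₑ := by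
            refine setLIntegral_congr_fun measurableSet_Ioi fun t ht => ?_
            show ‖Heat c V k t‖ₑ = _
            unfold Heat
            have ht' : (0 : ℝ) < t := ht
            rw [enorm_smul, ← ofReal_norm (Real.exp _), Real.norm_of_nonneg (Real.exp_pos _).le,
              max_eq_left ht'.le, sub_zero]
          rw [e2, lintegral_mul_const _ (by fun_prop), setLIntegral_congr Ioi_ae_eq_Ici,
            lint_exp hlam 0]
        rw [e1]
        apply le_of_eq
        unfold Wp Wm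
        have := om_pos a k
        rw [← mul_assoc, ← mul_assoc, ← ENNReal.ofReal_mul (by positivity),
          ← ENNReal.ofReal_mul (by positivity)]
        congr 2
        rw [← nk_mul_self]
        field_simp

/-- Smooth data with small Lei-Lin norm have global solutions, which are small after a short time. -/
theorem small_data {c : ℝ} (hc : 0 < c) {dl : ℝ} (hdl : 0 < dl) {ε : ℝ} (hε : 0 < ε) :
    ∃ θ : ℝ, 0 < θ ∧ ∀ V : K → C3, Sym V → V 0 = 0 →
      (∀ m : ℕ, Summable fun k => pw k ^ m * ‖V k‖) → ∑' k, ‖V k‖ / nk k ≤ θ →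
      ∃ a : Wt, Sup a ∧ ∃ u : Fam, Sol c a V u ∧ ∀ t, dl ≤ t → An u t ≤ ε := by
  have hC := C0_pos
  obtain ⟨ε', hε', hlate⟩ := late hc (half_pos hdl) hε
  obtain ⟨Lam, ρ0, hp0⟩ := exists_par hc one_pos
  have hρ0 := hp0.hρ
  set ρ := min ρ0 (Real.exp (-(Lam * 1 ^ 2)) * (ε' / 2))
  have hρ : 0 < ρ := lt_min hρ0 (by positivity)
  have hp : Par c 1 Lam ρ := hp0.mono hρ (min_le_left _ _)
  have hρε : Real.exp (Lam * 1 ^ 2) * ρ ≤ ε' / 2 := by
    have h1 : ρ ≤ Real.exp (-(Lam * 1 ^ 2)) * (ε' / 2) := min_le_right _ _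
    calc Real.exp (Lam * 1 ^ 2) * ρ ≤ Real.exp (Lam * 1 ^ 2) * (Real.exp (-(Lam * 1 ^ 2)) * (ε' / 2)) :=
          mul_le_mul_of_nonneg_left h1 (Real.exp_pos _).le
      _ = _ := by rw [← mul_assoc, ← Real.exp_add]; simp
  set sc := Real.sqrt c
  have hsc : 0 < sc := Real.sqrt_pos.2 hc
  have hsc2 : sc ^ 2 = c := Real.sq_sqrt hc.le
  -- the bound for the weighted norm of the data
  set τ := min (min (sc / 1) (sc * (ε' / 2))) (Real.sqrt (sc * (ρ / 2) * c / C0))
  have hτ : 0 < τ := lt_min (lt_min (by positivity) (by positivity)) (Real.sqrt_pos.2 (by positivity))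
  have hτ1 : τ / sc ≤ 1 := by
    rw [div_le_one hsc]
    calc τ ≤ sc / 1 := (min_le_left _ _).trans (min_le_left _ _)
      _ = sc := div_one _
  have hτ2 : τ / sc ≤ ε' / 2 := by
    rw [div_le_iff₀ hsc, mul_comm]
    exact (min_le_left _ _).trans (min_le_right _ _)
  have hτ3 : C0 * (τ * (1 / c * τ)) ≤ sc * (ρ / 2) := by
    have h1 : τ ≤ Real.sqrt (sc * (ρ / 2) * c / C0) := min_le_right _ _
    have h2 : τ ^ 2 ≤ sc * (ρ / 2) * c / C0 := by
      calc τ ^ 2 ≤ (Real.sqrt (sc * (ρ / 2) * c / C0)) ^ 2 := by gcongr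
        _ = _ := Real.sq_sqrt (by positivity)
    calc C0 * (τ * (1 / c * τ)) = C0 / c * τ ^ 2 := by ring
      _ ≤ C0 / c * (sc * (ρ / 2) * c / C0) := by gcongr
      _ = _ := by field_simp
  refine ⟨τ / 2, by positivity, fun V hVs hV0 hVm hVθ => ?_⟩
  set f : K → ℝ := fun k => ‖V k‖ / nk k
  have hf : ∀ k, 0 ≤ f k := fun k => div_nonneg (norm_nonneg _) (nk_nonneg k)
  have hfV : ∀ k, f k ≤ ‖V k‖ := by
    intro k
    by_cases hk : k = 0
    · subst hk; simp [f, hV0]
    · exact div_le_self (norm_nonneg _) (one_le_nk hk)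
  have hfm : ∀ m : ℕ, Summable fun k => pw k ^ m * f k := fun m =>
    (hVm m).of_nonneg_of_le (fun k => mul_nonneg (pow_pos (pw_pos k) m).le (hf k))
      fun k => mul_le_mul_of_nonneg_left (hfV k) (pow_pos (pw_pos k) m).le
  obtain ⟨a, ha, hs1, hs2, hsum⟩ := exists_weight hf hfm (half_pos hτ)
  have hVf : ∀ k, ‖V k‖ ≤ pw k * f k := by
    intro k
    by_cases hk : k = 0
    · subst hk; rw [hV0, norm_zero]; exact mul_nonneg (pw_pos 0).le (hf 0)
    · have h1 := nk_pos hk
      have h2 : nk k ≤ pw k := nk_le_pw k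
      calc ‖V k‖ = nk k * f k := by simp only [f]; field_simp
        _ ≤ _ := mul_le_mul_of_nonneg_right h2 (hf k)
  have hoV : Summable fun k => om a k * ‖V k‖ :=
    hs1.of_nonneg_of_le (fun k => mul_nonneg (om_pos a k).le (norm_nonneg _))
      fun k => mul_le_mul_of_nonneg_left (hVf k) (om_pos a k).le
  have hVSN : Summable fun k => ‖V k‖ := hoV.of_nonneg_of_le (fun _ => norm_nonneg _) fun k => by
    have := one_le_om (a := a) trivial k
    nlinarith [norm_nonneg (V k)]
  have hX : NW (Wm a) V ≤ ENNReal.ofReal τ := by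
    have e1 : NW (Wm a) V = ENNReal.ofReal (∑' k, om a k * f k) := by
      rw [ENNReal.ofReal_tsum_of_nonneg (fun k => mul_nonneg (om_pos a k).le (hf k)) hs2]
      unfold NW Wm
      refine tsum_congr fun k => ?_
      rw [← ofReal_norm, ← ENNReal.ofReal_mul (div_nonneg (om_pos a k).le (nk_nonneg k))]
      congr 1
      simp only [f]; ring
    rw [e1]
    apply ENNReal.ofReal_le_ofReal
    linarith
  -- the heat flow
  set U : Fam := Heat c V
  have hU : CF U := Heat_cf c V
  have hUd : Dom U := ⟨fun k => ‖V k‖, hVSN, fun k t => Heat_norm hc V k t⟩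
  have hUs : SymF U := Heat_sym hVs
  set A : ℝ → ℝ := fun t => ∑' k, om a k * ‖U k t‖
  have hAs : ∀ t, Summable fun k => om a k * ‖U k t‖ := fun t =>
    hoV.of_nonneg_of_le (fun k => mul_nonneg (om_pos a k).le (norm_nonneg _))
      fun k => mul_le_mul_of_nonneg_left (Heat_norm hc V k t) (om_pos a k).le
  have hAc : Continuous A := by
    refine continuous_tsum (fun k => continuous_const.mul (hU k).norm) hoV fun k t => ?_
    rw [Real.norm_of_nonneg (mul_nonneg (om_pos a k).le (norm_nonneg _))]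
    exact mul_le_mul_of_nonneg_left (Heat_norm hc V k t) (om_pos a k).le
  have hA0 : ∀ t, 0 ≤ A t := fun t => tsum_nonneg fun k => mul_nonneg (om_pos a k).le (norm_nonneg _)
  have hNA : ∀ t, NW (Wa a) (at' U t) = ENNReal.ofReal (A t) := by
    intro t
    simp only [A]
    rw [ENNReal.ofReal_tsum_of_nonneg (fun k => mul_nonneg (om_pos a k).le (norm_nonneg _)) (hAs t)]
    unfold NW Wa
    refine tsum_congr fun k => ?_
    rw [← ofReal_norm, ← ENNReal.ofReal_mul (om_pos a k).le]
    rfl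
  have hint : ∫⁻ t in Ioi 0, NW (Wa a) (at' U t) * NW (Wa a) (at' U t)
      ≤ ENNReal.ofReal (τ * (1 / c * τ)) := by
    refine (Heat_int hc hV0).trans ?_
    rw [ENNReal.ofReal_mul hτ.le, ENNReal.ofReal_mul (by positivity)]
    gcongr
  have hLNA : LN (fun t => ENNReal.ofReal (A t)) ≤ ENNReal.ofReal (τ / sc) := by
    unfold LN
    have e1 : ∫⁻ t in Ioi 0, ENNReal.ofReal (A t) ^ (2 : ℝ) ≤ ENNReal.ofReal (τ * (1 / c * τ)) := by
      refine le_trans (le_of_eq ?_) hint
      refine lintegral_congr fun t => ?_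
      rw [hNA, ENNReal.rpow_two, pow_two]
    refine (ENNReal.rpow_le_rpow e1 (by norm_num)).trans (le_of_eq ?_)
    rw [ENNReal.ofReal_rpow_of_nonneg (by positivity) (by norm_num), ← Real.sqrt_eq_rpow]
    congr 1
    have : τ * (1 / c * τ) = (τ / sc) ^ 2 := by rw [div_pow, hsc2]; ring
    rw [this, Real.sqrt_sq (by positivity)]
  have hAi : LN (fun t => ENNReal.ofReal (A t)) ≤ ENNReal.ofReal 1 :=
    hLNA.trans (ENNReal.ofReal_le_ofReal hτ1)
  have hFE : CF (Bt U) := Bt_cont hU hUd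
  have hFE0 : ∀ t, Bt U 0 t = 0 := fun t => Bf_zero _ _
  have hFEi : ∫⁻ s in Ioi 0, NW (Wm a) (at' (Bt U) s) ≤ ENNReal.ofReal (C0 * (τ * (1 / c * τ))) := by
    calc _ ≤ ∫⁻ s in Ioi 0, ENNReal.ofReal C0 * (NW (Wa a) (at' U s) * NW (Wa a) (at' U s)) :=
          lintegral_mono fun s => NW_Bf_le trivial _ _
      _ = ENNReal.ofReal C0 * ∫⁻ s in Ioi 0, NW (Wa a) (at' U s) * NW (Wa a) (at' U s) := by
          have mm : Measurable fun s => NW (Wa a) (at' U s) * NW (Wa a) (at' U s) :=
            (NW_meas _ hU).mul (NW_meas _ hU)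
          rw [lintegral_const_mul _ mm]
      _ ≤ _ := by
          rw [ENNReal.ofReal_mul hC.le]
          exact mul_le_mul' le_rfl hint
  have hη2 : (C0 * (τ * (1 / c * τ))) ^ 2 ≤ c * (ρ / 2) ^ 2 := by
    calc (C0 * (τ * (1 / c * τ))) ^ 2 ≤ (sc * (ρ / 2)) ^ 2 := by gcongr
      _ = _ := by rw [mul_pow, hsc2]
  obtain ⟨r, M, hM, hrc, hr0, hrM, hrL, hrfix, hrs⟩ := exist hp ha hAc hA0 hAi hU hUd hUs
    (fun t _ => (hNA t).le) hFE (Bt_sym hUs) hFE0 (by positivity) hη2 hFEi
  have hrfix' : r = Duh c (Bt (U + r)) := by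
    rw [add_sub_cancel] at hrfix
    exact hrfix
  have hrb : ∀ k t, ‖r k t‖ ≤ M * (nk k / om a k) := fun k t => norm_le_of_NWm hM (hr0 t) (hrM t) k
  set a' := a.sqrt
  have ha' : Sup a' := ha.sqrt
  have hb1 : Summable fun k => om a' k * ‖V k‖ :=
    hoV.of_nonneg_of_le (fun k => mul_nonneg (om_pos a' k).le (norm_nonneg _))
      fun k => mul_le_mul_of_nonneg_right (a.sqrt_le k) (norm_nonneg _)
  have hb2 : Summable fun k => om a' k * (M * (nk k / om a k)) := by
    refine ((summ_nk ha').mul_left M).congr fun k => ?_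
    rw [← a.sqrt_sq k]
    have := om_pos a' k
    show M * (nk k / om a' k) = om a' k * (M * (nk k / (om a' k * om a' k)))
    field_simp
  have hrd : Dom r := ⟨_, (summ_nk ha).mul_left M, hrb⟩
  have hsol : Sol c a' V (U + r) := by
    refine ⟨fun k => (hU k).add (hrc k), ?_, fun t => (hUs t).add (hrs t), ?_, ?_, ?_⟩
    · intro t
      show U 0 t + r 0 t = 0
      rw [hr0]
      simp [U, Heat, hV0]
    · refine ⟨fun k => ‖V k‖ + M * (nk k / om a k), ?_, fun k t => ?_⟩
      · refine (hb1.add hb2).congr fun k => ?_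
        ring
      · exact (norm_add_le _ _).trans (add_le_add (Heat_norm hc V k t) (hrb k t))
    · have m1 : Measurable fun t => NW (Wa a') (at' U t) := NW_meas _ hU
      have m2 : Measurable fun t => NW (Wa a') (at' r t) := NW_meas _ hrc
      have g1 : LN (fun t => NW (Wa a') (at' U t)) ≠ ⊤ := by
        refine ne_top_of_le_ne_top ENNReal.ofReal_ne_top ((LN_mono fun t ht => ?_).trans hAi)
        rw [← hNA]
        exact NW_mono (fun k => Wa_mono a.sqrt_le k) _
      have g2 : LN (fun t => NW (Wa a') (at' r t)) ≠ ⊤ :=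
        ne_top_of_le_ne_top (ENNReal.mul_ne_top ENNReal.ofReal_ne_top
          (ne_top_of_le_ne_top ENNReal.ofReal_ne_top hrL))
          (LN_le_LF hp.hL.le zero_le_one hAc hA0 hAi a.sqrt_le hrc)
      refine ne_top_of_le_ne_top (ENNReal.add_ne_top.2 ⟨g1, g2⟩) ((LN_mono fun t _ => ?_).trans
        (LN_add_le m1 m2))
      exact NW_add_le _ _ _
    · intro k t
      show U k t + r k t = _
      rw [show r k t = Duh c (Bt (U + r)) k t from congrFun (congrFun hrfix' k) t]
      rfl
  refine ⟨a', ha', U + r, hsol, ?_⟩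
  · intro t ht
    have hUrc : CF (U + r) := fun k => (hU k).add (hrc k)
    have m1 : Measurable fun t => NW (Wa Wt.one) (at' U t) := NW_meas _ hU
    have m2 : Measurable fun t => NW (Wa Wt.one) (at' r t) := NW_meas _ hrc
    have hone : ∀ k, om Wt.one k ≤ om a k := fun k => a.one_le k
    have g1 : LN (fun t => NW (Wa Wt.one) (at' U t)) ≤ ENNReal.ofReal (ε' / 2) := by
      refine (LN_mono fun t ht => ?_).trans (hLNA.trans (ENNReal.ofReal_le_ofReal hτ2))
      rw [← hNA]
      exact NW_mono (fun k => Wa_mono hone k) _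
    have g2 : LN (fun t => NW (Wa Wt.one) (at' r t)) ≤ ENNReal.ofReal (ε' / 2) := by
      refine (LN_le_LF hp.hL.le zero_le_one hAc hA0 hAi hone hrc).trans
        ((mul_le_mul' le_rfl hrL).trans ?_)
      rw [← ENNReal.ofReal_mul (Real.exp_pos _).le]
      exact ENNReal.ofReal_le_ofReal hρε
    have g3 : LNd (dl / 2) (U + r) ≤ ENNReal.ofReal ε' := by
      refine (LNd_le_LN _ _).trans ((LN_mono fun t _ => NW_add_le _ _ _).trans
        ((LN_add_le m1 m2).trans ((add_le_add g1 g2).trans ?_)))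
      rw [← ENNReal.ofReal_add (by positivity) (by positivity), add_halves]
    exact hlate a' ha' V (U + r) hsol g3 t (by linarith)

end Pool.Agent.K1H11.NS
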