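import Pool.Agent.K1H11.NS.Pot2
import Pool.Agent.K1H11.NS.SmallData

/-!
# Changing a field on a small set
-/

open MeasureTheory Set Filter Topology
open scoped ENNReal NNReal ContDiff

namespace Pool.Agent.K1H11.NS

open H459R3.NS (ee fc fr cube S SP Per pd D Rap N)

lemma phi_add_nat (η y : ℝ) (n : ℕ) : phi η (y + n) = phi η y + n := by
  induction n with
  | zero => simp
  | succ n ih =>
    push_cast
    rw [show y + ((n : ℝ) + 1) = (y + n) + 1 by ring, phi_add_one, ih]; ring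

lemma PhiN_contDiff {η : ℝ} (h0 : 0 < η) (h1 : η ≤ 1 / 4) (N : ℕ) : ContDiff ℝ ∞ (PhiN η N) := by
  rw [contDiff_pi]
  intro j
  unfold PhiN
  refine ContDiff.div_const ((phi_contDiff h0 h1).comp (contDiff_const.mul ?_)) _
  exact contDiff_apply ℝ ℝ j

lemma PhiN_add (η : ℝ) {N : ℕ} (hN : 0 < N) (x : E3) (i : Fin 3) :
    PhiN η N (x + Pi.single i 1) = PhiN η N x + Pi.single i 1 := by
  have hN' : (N : ℝ) ≠ 0 := by exact_mod_cast hN.ne'
  funext j
  unfold PhiN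
  by_cases hj : j = i
  · subst hj
    simp only [Pi.add_apply, Pi.single_eq_same, mul_add, mul_one]
    rw [phi_add_nat]
    field_simp
  · simp [Pi.single_eq_of_ne hj]

lemma comp_SP {η : ℝ} (h0 : 0 < η) (h1 : η ≤ 1 / 4) {N : ℕ} (hN : 0 < N) {B : E3 → ℝ} (hB : SP B) :
    SP (fun x => B (PhiN η N x)) where
  smooth := hB.smooth.comp (PhiN_contDiff h0 h1 N)
  per := fun i x => by
    show B (PhiN η N (x + Pi.single i 1)) = B (PhiN η N x)
    rw [PhiN_add η hN, hB.per]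

lemma PhiN_hasFDerivAt {η : ℝ} (h0 : 0 < η) (h1 : η ≤ 1 / 4) {N : ℕ} (hN : 0 < N) (x : E3) :
    HasFDerivAt (PhiN η N) (ContinuousLinearMap.pi fun j =>
      deriv (phi η) (N * x j) • (ContinuousLinearMap.proj j : E3 →L[ℝ] ℝ)) x := by
  have hN' : (N : ℝ) ≠ 0 := by exact_mod_cast hN.ne'
  rw [hasFDerivAt_pi]
  intro j
  have hp : HasDerivAt (phi η) (deriv (phi η) (N * x j)) (N * x j) :=
    ((phi_contDiff h0 h1).differentiable (by simp) _).hasDerivAt
  have h2 : HasFDerivAt (fun y : E3 => (N : ℝ) * y j) ((N : ℝ) • (ContinuousLinearMap.proj j : E3 →L[ℝ] ℝ)) x :=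
    ((ContinuousLinearMap.proj (R := ℝ) (φ := fun _ : Fin 3 => ℝ) j).hasFDerivAt (x := x)).const_mul _
  have h3 := hp.comp_hasFDerivAt x h2
  have h4 := h3.mul_const ((N : ℝ)⁻¹)
  have e : PhiN η N = fun y => fun j => phi η (N * y j) * ((N : ℝ)⁻¹) := by
    funext y j; unfold PhiN; rw [div_eq_mul_inv]
  rw [show (fun y => PhiN η N y j) = fun y => phi η (N * y j) * ((N : ℝ)⁻¹) from funext fun y => by rw [e]]
  refine h4.congr_fderiv ?_
  ext v
  simp
  field_simp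

lemma pd_comp {η : ℝ} (h0 : 0 < η) (h1 : η ≤ 1 / 4) {N : ℕ} (hN : 0 < N) {B : E3 → ℝ} (hB : SP B) (j : Fin 3)
    (x : E3) : pd j (fun x => B (PhiN η N x)) x = deriv (phi η) (N * x j) * pd j B (PhiN η N x) := by
  unfold pd
  have h2 : HasFDerivAt B (fderiv ℝ B (PhiN η N x)) (PhiN η N x) :=
    (hB.smooth.differentiable (by simp) _).hasFDerivAt
  have h3 := h2.comp x (PhiN_hasFDerivAt h0 h1 hN x)
  have h4 : fderiv ℝ (fun x => B (PhiN η N x)) x = (fderiv ℝ B (PhiN η N x)).comp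
      (ContinuousLinearMap.pi fun j => deriv (phi η) (N * x j) • (ContinuousLinearMap.proj j : E3 →L[ℝ] ℝ)) :=
    h3.fderiv
  rw [h4, ContinuousLinearMap.comp_apply]
  have e : (ContinuousLinearMap.pi fun j => deriv (phi η) (N * x j) • (ContinuousLinearMap.proj j : E3 →L[ℝ] ℝ))
      (Pi.single j (1 : ℝ)) = deriv (phi η) (N * x j) • (Pi.single j (1 : ℝ) : E3) := by
    funext i
    by_cases hi : i = j
    · subst hi; simp
    · simp [Pi.single_eq_of_ne hi]
  rw [e, map_smul, smul_eq_mul]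

lemma cu_sub {B G : Fin 3 → E3 → ℝ} (hB : ∀ i, SP (B i)) (hG : ∀ i, SP (G i)) (i : Fin 3) (x : E3) :
    cu (fun i x => B i x - G i x) i x = cu B i x - cu G i x := by
  have e : ∀ j i, pd j (fun x => B i x - G i x) x = pd j (B i) x - pd j (G i) x := by
    intro j i
    unfold pd
    rw [fderiv_fun_sub ((hB i).smooth.differentiable (by simp) x) ((hG i).smooth.differentiable (by simp) x)]
    rfl
  unfold cu
  rw [e, e]; ring

lemma SP.bdd {f : E3 → ℝ} (hf : SP f) : ∃ M : ℝ, 0 ≤ M ∧ ∀ x, |f x| ≤ M := by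
  have hr := (H459R3.NS.rap_fr hf).summable
  refine ⟨∑' k, ‖fr f k‖, tsum_nonneg fun _ => norm_nonneg _, fun x => ?_⟩
  have := H459R3.NS.norm_S_le hr x
  rwa [H459R3.NS.S_fr hf x, Complex.norm_real] at this

/-- The set of points near the walls. -/
def Tb (η : ℝ) (N : ℕ) : Set ℝ :=
  ⋃ m ∈ Finset.range (N + 1), Icc (((m : ℝ) - η) / N) (((m : ℝ) + η) / N)

lemma vol_Tb {η : ℝ} (h0 : 0 < η) {N : ℕ} (hN : 0 < N) : volume (Tb η N) ≤ ENNReal.ofReal (4 * η) := by
  have hN1 : (1 : ℝ) ≤ N := by exact_mod_cast hN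
  unfold Tb
  refine (measure_biUnion_finset_le _ _).trans ?_
  have e : ∀ m : ℕ, volume (Icc (((m : ℝ) - η) / N) (((m : ℝ) + η) / N)) = ENNReal.ofReal (2 * η / N) := by
    intro m
    rw [Real.volume_Icc]
    congr 1
    ring
  simp_rw [e]
  rw [Finset.sum_const, Finset.card_range, nsmul_eq_mul,
    show ((N + 1 : ℕ) : ℝ≥0∞) = ENNReal.ofReal ((N + 1 : ℕ) : ℝ) from (ENNReal.ofReal_natCast _).symm,
    ← ENNReal.ofReal_mul (by positivity)]
  apply ENNReal.ofReal_le_ofReal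
  push_cast
  rw [mul_div_assoc', div_le_iff₀ (by linarith)]
  nlinarith

lemma vol_bad {η : ℝ} (h0 : 0 < η) {N : ℕ} (hN : 0 < N) (j : Fin 3) :
    volume {x : E3 | x ∈ cube ∧ x j ∈ Tb η N} ≤ ENNReal.ofReal (4 * η) := by
  have hsub : {x : E3 | x ∈ cube ∧ x j ∈ Tb η N} ⊆
      Set.pi univ (fun i => if i = j then Tb η N else Icc (0 : ℝ) 1) := by
    rintro x ⟨hx, hj⟩ i _
    by_cases hi : i = j
    · subst hi; simpa using hj
    · simp only [hi, if_false]
      exact ⟨hx.1 i, hx.2 i⟩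
  refine (measure_mono hsub).trans ?_
  rw [volume_pi_pi]
  rw [Finset.prod_eq_single j]
  · simpa using vol_Tb h0 hN
  · intro i _ hi
    simp [hi]
  · simp

lemma mem_Tb {η : ℝ} (h1 : η ≤ 1 / 4) {N : ℕ} (hN : 0 < N) {t : ℝ} (ht0 : 0 ≤ t) (ht1 : t ≤ 1)
    {m : ℤ} (hm : |N * t - m| ≤ η) : t ∈ Tb η N := by
  have hN1 : (1 : ℝ) ≤ N := by exact_mod_cast hN
  obtain ⟨a, b⟩ := abs_le.1 hm
  have h2 : 0 ≤ N * t := by positivity
  have h3 : N * t ≤ N := by nlinarith
  have m0 : 0 ≤ m := by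
    have : (-1 : ℝ) < m := by linarith
    have : (-1 : ℤ) < m := by exact_mod_cast this
    omega
  have m1 : m ≤ N := by
    have : (m : ℝ) < N + 1 := by linarith
    have : m < N + 1 := by exact_mod_cast this
    omega
  obtain ⟨n, rfl⟩ := Int.eq_ofNat_of_zero_le m0
  unfold Tb
  simp only [mem_iUnion, Finset.mem_range]
  refine ⟨n, by omega, ?_⟩
  push_cast at a b
  constructor
  · rw [div_le_iff₀ (by linarith)]; linarith
  · rw [le_div_iff₀ (by linarith)]; linarith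

lemma phi_deriv_le {η : ℝ} (h0 : 0 < η) (h1 : η ≤ 1 / 4) {C : ℝ}
    (hC : ∀ t, |deriv Real.smoothTransition t| ≤ C) (y : ℝ) : |deriv (phi η) y| ≤ C / η := by
  have hC0 : 0 ≤ C := (abs_nonneg _).trans (hC 0)
  rw [phi_deriv h0 h1, abs_mul, abs_of_pos (by positivity : 0 < 1 / (2 * η))]
  calc _ ≤ C * (1 / (2 * η)) := mul_le_mul_of_nonneg_right (hC _) (by positivity)
    _ ≤ C * (1 / η) := by gcongr; linarith
    _ = C / η := by ring

end Pool.Agent.K1H11.NS
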