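import Pool.Agent.K1H11.NS.Lus

/-!
# Changing a field on a small set so that the solution is global
-/

open MeasureTheory Set Filter Topology
open scoped ENNReal NNReal ContDiff

namespace Pool.Agent.K1H11.NS

open H459R3.NS (ee fc fr cube S SP Per D Rap N)
open Pool.Agent.H356R3.NS (AdmissiblePeriodic R3)

/-- The physical part: the modified field. -/
theorem modify {u : E3 → E3} (hu : ∀ i, SP fun x => u x i)
    (hdiv : ∀ x, ∑ i, H459R3.NS.pd i (fun y => u y i) x = 0) :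
    ∃ C : ℝ, 0 ≤ C ∧ ∀ η, 0 < η → η ≤ 1 / 4 → ∀ θ > 0, ∃ G : Fin 3 → E3 → ℝ, (∀ i, SP (G i)) ∧
      volume {x | x ∈ cube ∧ (fun i => (∫ y in cube, u y i) + cu G i x) ≠ u x} ≤ ENNReal.ofReal (12 * η) ∧
      (∀ x i, |(∫ y in cube, u y i) + cu G i x - u x i| ≤ C / η) ∧
      ∑ i, ∑' k, ‖fr (G i) k‖ ≤ θ := by
  obtain ⟨B, hB, hBu⟩ := exists_potential hu hdiv
  obtain ⟨Cs, hCs0, hCs⟩ := exists_sT_bound
  have hM : ∀ i j, ∃ M : ℝ, 0 ≤ M ∧ ∀ x, |H459R3.NS.pd j (B i) x| ≤ M := fun i j => SP.bdd ((hB i).pd j)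
  choose M hM0 hM using hM
  set MM := ∑ i, ∑ j, M i j with hMM
  have hle : ∀ i j, M i j ≤ MM := fun i j =>
    (Finset.single_le_sum (f := fun j => M i j) (fun j _ => hM0 i j) (Finset.mem_univ j)).trans
      (Finset.single_le_sum (f := fun i => ∑ j, M i j)
        (fun i _ => Finset.sum_nonneg fun j _ => hM0 i j) (Finset.mem_univ i))
  have hMM0 : 0 ≤ MM := Finset.sum_nonneg fun i _ => Finset.sum_nonneg fun j _ => hM0 i j
  refine ⟨2 * (Cs * MM), by positivity, fun η h0 h1 θ hθ => ?_⟩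
  obtain ⟨K, hK0, hK⟩ := WB_diff h0 h1
  have hsum : ∀ i, Summable fun l => pw l ^ 6 * ‖fr (B i) l‖ := fun i => rap_pw (H459R3.NS.rap_fr (hB i)) 6
  set T := ∑ i, ∑' l, pw l ^ 6 * ‖fr (B i) l‖ with hT
  have hT0 : 0 ≤ T := Finset.sum_nonneg fun i _ => tsum_nonneg fun l =>
    mul_nonneg (pow_pos (pw_pos l) 6).le (norm_nonneg _)
  obtain ⟨N, hN⟩ := exists_nat_gt (K * T / θ)
  have hNpos : 0 < N := by
    rcases Nat.eq_zero_or_pos N with h | h
    · subst h
      have : 0 ≤ K * T / θ := by positivity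
      simp at hN
      linarith
    · exact h
  have hNr : (0 : ℝ) < N := by exact_mod_cast hNpos
  have hc : ∀ i, SP fun x => B i (PhiN η N x) := fun i => comp_SP h0 h1 hNpos (hB i)
  have hG : ∀ i, SP fun x => B i x - B i (PhiN η N x) := fun i => SP.sub (hB i) (hc i)
  have hcu : ∀ i x, (∫ y in cube, u y i) + cu (fun i x => B i x - B i (PhiN η N x)) i x
      = u x i - cu (fun i x => B i (PhiN η N x)) i x := by
    intro i x
    rw [cu_sub hB hc, hBu x i]; ring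
  refine ⟨fun i x => B i x - B i (PhiN η N x), hG, ?_, ?_, ?_⟩
  · have hsub : {x | x ∈ cube ∧ (fun i => (∫ y in cube, u y i) + cu (fun i x => B i x - B i (PhiN η N x)) i x) ≠ u x}
        ⊆ ⋃ j ∈ (Finset.univ : Finset (Fin 3)), {x : E3 | x ∈ cube ∧ x j ∈ Tb η N} := by
      rintro x ⟨hx, hne⟩
      by_contra hcon
      simp only [Finset.mem_univ, iUnion_true, mem_iUnion, mem_setOf_eq, not_exists, not_and] at hcon
      apply hne
      have hz : ∀ j, deriv (phi η) (N * x j) = 0 := by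
        intro j
        apply phi_deriv_zero h0 h1
        intro m
        by_contra hm
        push Not at hm
        exact hcon j hx (mem_Tb h1 hNpos (hx.1 j) (hx.2 j) hm)
      funext i
      rw [hcu]
      unfold cu
      rw [pd_comp h0 h1 hNpos (hB _), pd_comp h0 h1 hNpos (hB _), hz, hz]
      ring
    refine (measure_mono hsub).trans ((measure_biUnion_finset_le _ _).trans ?_)
    calc ∑ j : Fin 3, volume {x : E3 | x ∈ cube ∧ x j ∈ Tb η N} ≤ ∑ _j : Fin 3, ENNReal.ofReal (4 * η) :=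
          Finset.sum_le_sum fun j _ => vol_bad h0 hNpos j
      _ = ENNReal.ofReal (12 * η) := by
          rw [Finset.sum_const, Finset.card_univ, Fintype.card_fin, nsmul_eq_mul,
            show ((3 : ℕ) : ℝ≥0∞) = ENNReal.ofReal (3 : ℝ) by norm_num, ← ENNReal.ofReal_mul (by norm_num)]
          congr 1; ring
  · intro x i
    rw [hcu]
    have hp : ∀ j i, |H459R3.NS.pd j (fun x => B i (PhiN η N x)) x| ≤ Cs / η * MM := by
      intro j i
      rw [pd_comp h0 h1 hNpos (hB _), abs_mul]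
      exact mul_le_mul (phi_deriv_le h0 h1 hCs _) ((hM i j _).trans (hle i j)) (abs_nonneg _) (by positivity)
    rw [show u x i - cu (fun i x => B i (PhiN η N x)) i x - u x i = -cu (fun i x => B i (PhiN η N x)) i x by ring,
      abs_neg]
    unfold cu
    refine (abs_sub _ _).trans ?_
    calc _ ≤ Cs / η * MM + Cs / η * MM := add_le_add (hp _ _) (hp _ _)
      _ = 2 * (Cs * MM) / η := by ring
  · have hW : ∀ i, ∑' k, ‖fr (fun x => B i x - B i (PhiN η N x)) k‖ ≤ K / N * ∑' l, pw l ^ 6 * ‖fr (B i) l‖ := by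
      intro i
      have h := (hK N hNpos (fr (B i)) (hsum i))
      have h2 := (h.congr (G := fun x => ((B i x - B i (PhiN η N x) : ℝ) : ℂ)) fun x => by
        rw [H459R3.NS.S_fr (hB i), H459R3.NS.S_fr (hB i)]; push_cast; ring).fc_le'.2
      exact h2
    calc ∑ i, ∑' k, ‖fr (fun x => B i x - B i (PhiN η N x)) k‖
        ≤ ∑ i, K / N * ∑' l, pw l ^ 6 * ‖fr (B i) l‖ := Finset.sum_le_sum fun i _ => hW i
      _ = K * T / N := by rw [← Finset.mul_sum]; ring
      _ ≤ θ := by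
          rw [div_le_iff₀ hNr]
          rw [div_lt_iff₀ hθ] at hN
          linarith

/-- The Lei-Lin norm of a curl. -/
lemma leilin_curl {G : Fin 3 → E3 → ℝ} (hG : ∀ i, SP (G i)) {θ : ℝ} (h : ∑ i, ∑' k, ‖fr (G i) k‖ ≤ θ) :
    ∑' k, ‖cF (fun i => fr (G i)) k‖ / nk k ≤ 4 * Real.pi * θ := by
  have hs : ∀ i, Summable fun k => ‖fr (G i) k‖ := fun i => (H459R3.NS.rap_fr (hG i)).summable.norm
  have hb : ∀ k, ‖cF (fun i => fr (G i)) k‖ / nk k ≤ 4 * Real.pi * ∑ i, ‖fr (G i) k‖ := by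
    intro k
    have h4 : 0 ≤ ∑ i, ‖fr (G i) k‖ := Finset.sum_nonneg fun _ _ => norm_nonneg _
    have hpi := Real.pi_pos
    by_cases hk : k = 0
    · subst hk
      rw [cF_zero, norm_zero, zero_div]; positivity
    · rw [div_le_iff₀ (nk_pos hk)]
      refine (norm_cF_le _ k).trans (le_of_eq (by ring))
  have hs2 : Summable fun k => 4 * Real.pi * ∑ i, ‖fr (G i) k‖ := (summable_sum fun i _ => hs i).mul_left _
  have hs1 : Summable fun k => ‖cF (fun i => fr (G i)) k‖ / nk k :=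
    Summable.of_nonneg_of_le (fun k => div_nonneg (norm_nonneg _) (nk_nonneg k)) hb hs2
  calc _ ≤ ∑' k, 4 * Real.pi * ∑ i, ‖fr (G i) k‖ := Summable.tsum_le_tsum hb hs1 hs2
    _ = 4 * Real.pi * ∑ i, ∑' k, ‖fr (G i) k‖ := by
        rw [tsum_mul_left, Summable.tsum_finsetSum fun i _ => hs i]
    _ ≤ _ := mul_le_mul_of_nonneg_left h (by positivity)

lemma rap_cF {G : Fin 3 → E3 → ℝ} (hG : ∀ i, SP (G i)) (m : ℕ) :
    Summable fun k => pw k ^ m * ‖cF (fun i => fr (G i)) k‖ := by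
  have hs : ∀ i, Summable fun k => pw k ^ (m + 1) * ‖fr (G i) k‖ := fun i => rap_pw (H459R3.NS.rap_fr (hG i)) _
  refine Summable.of_nonneg_of_le (fun k => mul_nonneg (pow_pos (pw_pos k) m).le (norm_nonneg _)) (fun k => ?_)
    ((summable_sum fun i (_ : i ∈ Finset.univ) => hs i).mul_left (4 * Real.pi))
  have h4 : 0 ≤ ∑ i, ‖fr (G i) k‖ := Finset.sum_nonneg fun _ _ => norm_nonneg _
  have hp := pow_pos (pw_pos k) m
  calc pw k ^ m * ‖cF (fun i => fr (G i)) k‖ ≤ pw k ^ m * (4 * Real.pi * nk k * ∑ i, ‖fr (G i) k‖) :=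
        mul_le_mul_of_nonneg_left (norm_cF_le _ k) hp.le
    _ ≤ pw k ^ m * (4 * Real.pi * pw k * ∑ i, ‖fr (G i) k‖) := by
        gcongr
        exact nk_le_pw' k
    _ = 4 * Real.pi * ∑ i, pw k ^ (m + 1) * ‖fr (G i) k‖ := by
        rw [← Finset.mul_sum]; ring

lemma cu_series {G : Fin 3 → E3 → ℝ} (hG : ∀ i, SP (G i)) (i : Fin 3) (x : E3) :
    (∑' k, cF (fun i => fr (G i)) k i * ex k x).re = cu G i x := by
  have h := H459R3.NS.S_fr (cu_SP hG i) x
  unfold S at h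
  have e : ∑' k, cF (fun i => fr (G i)) k i * ex k x = ∑' k, fr (cu G i) k * ee k x :=
    tsum_congr fun k => by rw [fr_cu hG, ex_eq_ee]
  rw [e, h, Complex.ofReal_re]

theorem main {ν : ℝ} (hν : 0 < ν) {u₀ : E3 → E3} (hu : ∀ i, SP fun x => u₀ x i)
    (hdiv : ∀ x, ∑ i, H459R3.NS.pd i (fun y => u₀ y i) x = 0) :
    ∃ C : ℝ, ∀ ε, 0 < ε → ε ≤ 1 → ∃ (v₀ : E3 → E3) (u : ℝ → E3 → E3) (p : ℝ → E3 → ℝ),
      volume {x | x ∈ Icc (0 : E3) 1 ∧ v₀ x ≠ u₀ x} ≤ ENNReal.ofReal ε ∧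
      (∀ x, ‖v₀ x - u₀ x‖ ≤ C / ε) ∧ (∀ i, SP fun x => v₀ x i) ∧
      (∀ i, ∫ x in Icc (0 : E3) 1, v₀ x i = ∫ x in Icc (0 : E3) 1, u₀ x i) ∧
      AdmissiblePeriodic ν v₀ u p ∧
      ∀ t, ε ≤ t → ∀ x i, |u t x i - ∫ y in Icc (0 : E3) 1, u₀ y i| ≤ ε := by
  obtain ⟨C, hC0, hC⟩ := modify hu hdiv
  have hc : 0 < 4 * Real.pi ^ 2 * ν := by have := Real.pi_pos; positivity
  refine ⟨12 * C, fun ε hε hε1 => ?_⟩
  obtain ⟨θ, hθ, hsmall⟩ := small_data hc (dl := ε) (ε := ε) hε hε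
  obtain ⟨G, hG, hvol, hbd, hW⟩ := hC (ε / 12) (by positivity) (by linarith) (θ / (4 * Real.pi)) (by
    have := Real.pi_pos; positivity)
  have hpi := Real.pi_pos
  obtain ⟨a, ha, U, hU, hsmallU⟩ := hsmall (cF fun i => fr (G i)) (cF_sym G) (cF_zero _) (rap_cF hG)
    ((leilin_curl hG hW).trans (le_of_eq (by field_simp)))
  have hphys := sol_physical ha (cF_div fun i => fr (G i)) hU (fun i => ∫ y in cube, u₀ y i)
  have e0 : (fun (x : E3) i => (∫ y in cube, u₀ y i) + (∑' k, cF (fun i => fr (G i)) k i * ex k x).re)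
      = fun x i => (∫ y in cube, u₀ y i) + cu G i x := by
    funext x i
    rw [cu_series hG]
  rw [e0] at hphys
  refine ⟨fun x i => (∫ y in cube, u₀ y i) + cu G i x, _, _, ?_, ?_, ?_, ?_, hphys, ?_⟩
  · refine hvol.trans (ENNReal.ofReal_le_ofReal (le_of_eq (by ring)))
  · intro x
    rw [pi_norm_le_iff_of_nonneg (by positivity)]
    intro i
    have := hbd x i
    rw [Real.norm_eq_abs]
    refine this.trans (le_of_eq (by field_simp))
  · intro i
    exact (SP.const _).add (cu_SP hG i)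
  · intro i
    have h1 : ∫ x in cube, cu G i x = 0 := by
      have h2 := fr_cu hG i 0
      rw [cF_zero, fr_zero, Pi.zero_apply] at h2
      exact_mod_cast h2
    show ∫ x in cube, ((∫ y in cube, u₀ y i) + cu G i x) = ∫ y in cube, u₀ y i
    rw [integral_add]
    · rw [h1, add_zero, setIntegral_const]
      simp [Measure.real, H459R3.NS.volume_cube]
    · exact H459R3.NS.integrableOn_cube continuous_const
    · exact H459R3.NS.integrableOn_cube (cu_SP hG i).smooth.continuous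
  · intro t ht x i
    show |(∫ y in cube, u₀ y i) + (GS (fun i => ∫ y in cube, u₀ y i) (cf' U i) t x).re - ∫ y in cube, u₀ y i| ≤ ε
    rw [add_sub_cancel_left]
    exact (GS_le (Sol.dom' ha hU) _ _ _ _).trans (hsmallU t ht)

end Pool.Agent.K1H11.NS
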