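import Pool.Agent.K1H11.NS.Wien2
import Pool.Agent.K1H11.NS.Reg4
import Pool.Agent.H459R3.NS.Phys2

/-!
# Vector potentials of smooth periodic divergence free fields
-/

open MeasureTheory Set Filter Topology
open scoped ENNReal NNReal ContDiff

namespace Pool.Agent.K1H11.NS

open H459R3.NS (ee fc fr cube S SP Per pd D Rap N)

lemma ex_eq_ee (k : K) (x : E3) : ex k x = ee k x := by
  unfold ex ee H459R3.NS.ph
  push_cast
  rfl

lemma l1_le_N (k : K) : l1 k ≤ 3 * N k := by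
  unfold l1
  have h : ∀ j, |(k j : ℝ)| ≤ N k := by
    intro j
    have := (H459R3.NS.N_le_iff k (N k)).1 le_rfl j
    exact_mod_cast this
  calc ∑ i, |(k i : ℝ)| ≤ ∑ _i : Fin 3, (N k : ℝ) := Finset.sum_le_sum fun i _ => h i
    _ = 3 * N k := by simp

lemma pw_pow_le (k : K) (m : ℕ) : pw k ^ m ≤ 1 + 4 ^ m * (N k : ℝ) ^ m := by
  have h := l1_le_N k
  have h0 := l1_nonneg k
  by_cases hN : N k = 0
  · rw [hN] at h
    have : l1 k = 0 := by push_cast at h; linarith
    have : pw k = 1 := by unfold pw; linarith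
    rw [this, one_pow]
    have : (0 : ℝ) ≤ 4 ^ m * (N k : ℝ) ^ m := by positivity
    linarith
  · have h1 : (1 : ℝ) ≤ N k := by exact_mod_cast Nat.one_le_iff_ne_zero.2 hN
    have h2 : pw k ≤ 4 * N k := by unfold pw; linarith
    calc pw k ^ m ≤ (4 * N k : ℝ) ^ m := pow_le_pow_left₀ (pw_pos k).le h2 m
      _ = 4 ^ m * (N k : ℝ) ^ m := mul_pow _ _ _
      _ ≤ _ := by linarith

lemma rap_pw {b : K → ℂ} (hb : Rap b) (m : ℕ) : Summable fun k => pw k ^ m * ‖b k‖ := by
  have h1 : Summable fun k => ‖b k‖ := hb.summable.norm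
  have h2 := (hb m).mul_left ((4 : ℝ) ^ m)
  refine Summable.of_nonneg_of_le (fun k => mul_nonneg (pow_pos (pw_pos k) m).le (norm_nonneg _)) (fun k => ?_)
    (h1.add h2)
  calc pw k ^ m * ‖b k‖ ≤ (1 + 4 ^ m * (N k : ℝ) ^ m) * ‖b k‖ :=
        mul_le_mul_of_nonneg_right (pw_pow_le k m) (norm_nonneg _)
    _ = _ := by ring

lemma TT_const {b : K → ℂ} (hb : Rap b) (n : ℕ) : TT n (fun k _ => b k) := by
  have h0 : ∀ b : K → ℂ, Rap b → RD (fun k _ => b k) := fun b hb m =>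
    ⟨fun k => pw k ^ m * ‖b k‖, rap_pw hb m, fun k t => le_rfl⟩
  have hz : Rap (fun _ : K => (0 : ℂ)) := fun n => by simpa using summable_zero
  induction n generalizing b with
  | zero => exact ⟨h0 b hb, fun k => continuous_const⟩
  | succ n ih => exact ⟨h0 b hb, fun k => continuous_const, fun _ _ => 0,
      fun k t _ => hasDerivAt_const t (b k), ih hz⟩

/-- Rapidly decreasing symmetric coefficients are those of a smooth periodic function. -/
lemma exists_SP {b : K → ℂ} (hb : Rap b) (hr : ∀ k, b (-k) = star (b k)) :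
    ∃ B : E3 → ℝ, SP B ∧ (∀ x, (B x : ℂ) = S b x) ∧ fr B = b := by
  have hS : ∀ x, SF (fun k _ => b k) (0, x) = S b x := fun x => by
    unfold SF S
    exact tsum_congr fun k => by rw [ex_eq_ee]
  have him : ∀ x, (S b x).im = 0 := fun x => by
    rw [← hS]; exact SF_real (fun k t => hr k) _
  have hB : ∀ x, (((S b x).re : ℝ) : ℂ) = S b x := fun x => by
    apply Complex.ext
    · simp
    · simp [him x]
  refine ⟨fun x => (S b x).re, ⟨?_, ?_⟩, hB, ?_⟩
  · have h1 := SF_contDiffOn (c := fun k _ => b k) fun n => TT_const hb n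
    have h2 : ContDiff ℝ ∞ fun x : E3 => ((0, x) : ℝ × E3) := contDiff_const.prodMk contDiff_id
    have h3 : ContDiffOn ℝ ∞ (fun x : E3 => SF (fun k _ => b k) (0, x)) univ :=
      h1.comp h2.contDiffOn fun x _ => ⟨by simp [mem_Ici], mem_univ _⟩
    have h4 : ContDiff ℝ ∞ (fun x : E3 => S b x) := by
      rw [← contDiffOn_univ]
      exact h3.congr fun x _ => (hS x).symm
    exact Complex.reCLM.contDiff.comp h4
  · intro i x
    simp only
    congr 1
    unfold S
    exact tsum_congr fun k => by rw [H459R3.NS.ee_per k i x]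
  · funext k
    unfold fr fc
    simp only [hB]
    rw [H459R3.NS.integral_ee_S (-k) hb.summable, neg_neg]

lemma fr_neg (f : E3 → ℝ) (k : K) : fr f (-k) = star (fr f k) := by
  unfold fr fc
  rw [neg_neg, Complex.star_def, ← integral_conj]
  congr 1
  funext x
  rw [map_mul, Complex.conj_ofReal, H459R3.NS.ee_neg, Complex.conj_conj]

lemma fr_sub {f g : E3 → ℝ} (hf : SP f) (hg : SP g) (k : K) :
    fr (fun x => f x - g x) k = fr f k - fr g k := by
  unfold fr fc
  rw [← integral_sub]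
  · congr 1
    funext x
    push_cast; ring
  · exact H459R3.NS.integrableOn_cube ((H459R3.NS.ee_continuous _).mul
      (Complex.continuous_ofReal.comp hf.smooth.continuous))
  · exact H459R3.NS.integrableOn_cube ((H459R3.NS.ee_continuous _).mul
      (Complex.continuous_ofReal.comp hg.smooth.continuous))

lemma SP.sub {f g : E3 → ℝ} (hf : SP f) (hg : SP g) : SP (fun x => f x - g x) where
  smooth := hf.smooth.sub hg.smooth
  per := fun i x => by simp only [hf.per i x, hg.per i x]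

lemma SP.const (c : ℝ) : SP (fun _ => c) where
  smooth := contDiff_const
  per := fun i x => rfl

/-- The curl. -/
noncomputable def cu (B : Fin 3 → E3 → ℝ) (i : Fin 3) (x : E3) : ℝ :=
  pd (i + 1) (B (i + 2)) x - pd (i + 2) (B (i + 1)) x

lemma cu_SP {B : Fin 3 → E3 → ℝ} (hB : ∀ i, SP (B i)) (i : Fin 3) : SP (cu B i) :=
  SP.sub ((hB _).pd _) ((hB _).pd _)

/-- The curl of coefficients. -/
noncomputable def cF (b : Fin 3 → K → ℂ) (k : K) : C3 := fun i => D (i + 1) (b (i + 2)) k - D (i + 2) (b (i + 1)) k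

lemma fr_cu {B : Fin 3 → E3 → ℝ} (hB : ∀ i, SP (B i)) (i : Fin 3) (k : K) :
    fr (cu B i) k = cF (fun i => fr (B i)) k i := by
  unfold cu cF
  rw [fr_sub ((hB _).pd _) ((hB _).pd _), H459R3.NS.fr_pd (hB _), H459R3.NS.fr_pd (hB _)]

lemma cF_zero (b : Fin 3 → K → ℂ) : cF b 0 = 0 := by
  funext i
  simp [cF, D]

lemma cF_div (b : Fin 3 → K → ℂ) (k : K) : dt k (cF b k) = 0 := by
  unfold dt cF D
  rw [Fin.sum_univ_three]
  simp only [show (0 : Fin 3) + 1 = 1 from rfl, show (0 : Fin 3) + 2 = 2 from rfl,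
    show (1 : Fin 3) + 1 = 2 from rfl, show (1 : Fin 3) + 2 = 0 from rfl,
    show (2 : Fin 3) + 1 = 0 from rfl, show (2 : Fin 3) + 2 = 1 from rfl]
  ring

lemma cF_sym (B : Fin 3 → E3 → ℝ) : Sym (cF fun i => fr (B i)) := by
  intro k i
  unfold cF D
  simp only [fr_neg, star_sub, star_mul', Pi.neg_apply, Complex.star_def, Complex.conj_I, Complex.conj_ofReal,
    map_mul, map_ofNat, map_intCast]
  push_cast
  ring

lemma norm_cF_le (b : Fin 3 → K → ℂ) (k : K) : ‖cF b k‖ ≤ 4 * Real.pi * nk k * ∑ i, ‖b i k‖ := by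
  have hD : ∀ m i, ‖D m (b i) k‖ ≤ 2 * Real.pi * nk k * ∑ i, ‖b i k‖ := by
    intro m i
    unfold D
    have h1 : |(k m : ℝ)| ≤ nk k := abs_le_nk k m
    have h2 : ‖b i k‖ ≤ ∑ i, ‖b i k‖ := Finset.single_le_sum (f := fun i => ‖b i k‖)
      (fun _ _ => norm_nonneg _) (Finset.mem_univ i)
    simp only [norm_mul, Complex.norm_I, Complex.norm_intCast, Complex.norm_real, Complex.norm_ofNat,
      Real.norm_eq_abs, abs_of_pos Real.pi_pos, mul_one]
    have h3 := nk_nonneg k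
    have h4 : 0 ≤ ∑ i, ‖b i k‖ := Finset.sum_nonneg fun _ _ => norm_nonneg _
    gcongr
  have h3 := nk_nonneg k
  have h4 : 0 ≤ ∑ i, ‖b i k‖ := Finset.sum_nonneg fun _ _ => norm_nonneg _
  have hpi := Real.pi_pos
  rw [pi_norm_le_iff_of_nonneg (by positivity)]
  intro i
  refine (norm_sub_le _ _).trans ?_
  calc _ ≤ 2 * Real.pi * nk k * ∑ i, ‖b i k‖ + 2 * Real.pi * nk k * ∑ i, ‖b i k‖ := add_le_add (hD _ _) (hD _ _)
    _ = _ := by ring

/-- The coefficients of the potential. -/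
noncomputable def pot (a : Fin 3 → K → ℂ) (i : Fin 3) (k : K) : ℂ :=
  Complex.I * ((k (i + 1) : ℂ) * a (i + 2) k - (k (i + 2) : ℂ) * a (i + 1) k) / (2 * Real.pi * (sq k : ℂ))

lemma cF_pot {a : Fin 3 → K → ℂ} {k : K} (hk : k ≠ 0) (ha : ∑ j, (k j : ℂ) * a j k = 0) (i : Fin 3) :
    cF (pot a) k i = a i k := by
  have hs : (sq k : ℂ) ≠ 0 := by
    have := nk_pos hk
    have h2 : 0 < sq k := by rw [← nk_sq]; positivity
    exact_mod_cast h2.ne'
  have hs' : (sq k : ℂ) = (k 0 : ℂ) ^ 2 + (k 1 : ℂ) ^ 2 + (k 2 : ℂ) ^ 2 := by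
    unfold sq
    rw [Fin.sum_univ_three]
    push_cast
    ring
  have hpi : (Real.pi : ℂ) ≠ 0 := by exact_mod_cast Real.pi_ne_zero
  rw [Fin.sum_univ_three] at ha
  have hI : Complex.I ^ 2 = -1 := Complex.I_sq
  unfold cF D pot
  have key : ∀ i : Fin 3, 2 * Real.pi * Complex.I * (k (i + 1) : ℂ) *
      (Complex.I * ((k (i + 2 + 1) : ℂ) * a (i + 2 + 2) k - (k (i + 2 + 2) : ℂ) * a (i + 2 + 1) k) / (2 * Real.pi * (sq k : ℂ)))
      - 2 * Real.pi * Complex.I * (k (i + 2) : ℂ) *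
      (Complex.I * ((k (i + 1 + 1) : ℂ) * a (i + 1 + 2) k - (k (i + 1 + 2) : ℂ) * a (i + 1 + 1) k) / (2 * Real.pi * (sq k : ℂ)))
      = a i k := by
    intro i
    fin_cases i
    · simp only [Fin.isValue, Fin.zero_eta, zero_add, show (2 : Fin 3) + 1 = 0 from rfl, show (2 : Fin 3) + 2 = 1 from rfl,
        show (1 : Fin 3) + 1 = 2 from rfl, show (1 : Fin 3) + 2 = 0 from rfl]
      field_simp
      rw [hs']
      linear_combination (k 0 : ℂ) * Complex.I ^ 2 * ha - a 0 k * ((k 0 : ℂ) ^ 2 + (k 1 : ℂ) ^ 2 + (k 2 : ℂ) ^ 2) * hI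
    · simp only [Fin.isValue, Fin.mk_one, show (1 : Fin 3) + 1 = 2 from rfl, show (1 : Fin 3) + 2 = 0 from rfl,
        show (2 : Fin 3) + 1 = 0 from rfl, show (2 : Fin 3) + 2 = 1 from rfl, zero_add]
      field_simp
      rw [hs']
      linear_combination (k 1 : ℂ) * Complex.I ^ 2 * ha - a 1 k * ((k 0 : ℂ) ^ 2 + (k 1 : ℂ) ^ 2 + (k 2 : ℂ) ^ 2) * hI
    · simp only [Fin.isValue, Fin.reduceFinMk, show (2 : Fin 3) + 1 = 0 from rfl, show (2 : Fin 3) + 2 = 1 from rfl,
        show (1 : Fin 3) + 1 = 2 from rfl, show (1 : Fin 3) + 2 = 0 from rfl, zero_add]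
      field_simp
      rw [hs']
      linear_combination (k 2 : ℂ) * Complex.I ^ 2 * ha - a 2 k * ((k 0 : ℂ) ^ 2 + (k 1 : ℂ) ^ 2 + (k 2 : ℂ) ^ 2) * hI
  exact key i

end Pool.Agent.K1H11.NS
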