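import Pool.Agent.K1H11.NS.Pot

/-!
# Existence of the vector potential
-/

open MeasureTheory Set Filter Topology
open scoped ENNReal NNReal ContDiff

namespace Pool.Agent.K1H11.NS

open H459R3.NS (ee fc fr cube S SP Per pd D Rap N)

lemma fr_const (c : ℝ) (k : K) : fr (fun _ => c) k = if k = 0 then (c : ℂ) else 0 := by
  unfold fr fc
  rw [integral_mul_const, H459R3.NS.integral_ee]
  by_cases hk : k = 0
  · simp [hk]
  · rw [if_neg hk, if_neg (by simpa using hk), zero_mul]

lemma fr_zero (f : E3 → ℝ) : fr f 0 = ((∫ x in cube, f x : ℝ) : ℂ) := by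
  unfold fr fc
  rw [← integral_complex_ofReal]
  congr 1
  funext x
  rw [neg_zero, H459R3.NS.ee_zero, one_mul]

lemma fr_div {u : E3 → E3} (hu : ∀ i, SP fun x => u x i)
    (hdiv : ∀ x, ∑ i, pd i (fun y => u y i) x = 0) (k : K) : ∑ j, (k j : ℂ) * fr (fun x => u x j) k = 0 := by
  have h1 : ∑ j, D j (fr fun x => u x j) k = 0 := by
    have e : ∀ j, D j (fr fun x => u x j) k = ∫ x in cube, ee (-k) x * ((pd j (fun y => u y j) x : ℝ) : ℂ) := by
      intro j
      rw [← H459R3.NS.fr_pd (hu j)]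
      rfl
    simp_rw [e]
    rw [← integral_finset_sum]
    · have : (fun x => ∑ j, ee (-k) x * ((pd j (fun y => u y j) x : ℝ) : ℂ)) = fun _ => (0 : ℂ) := by
        funext x
        rw [← Finset.mul_sum, ← Complex.ofReal_sum, hdiv x]
        simp
      rw [this]; simp
    · intro j _
      exact H459R3.NS.integrableOn_cube ((H459R3.NS.ee_continuous _).mul
        (Complex.continuous_ofReal.comp ((hu j).pd j).smooth.continuous))
  unfold D at h1
  have h2 : 2 * Real.pi * Complex.I * ∑ j, (k j : ℂ) * fr (fun x => u x j) k = 0 := by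
    rw [← h1, Finset.mul_sum]
    exact Finset.sum_congr rfl fun j _ => by ring
  have hpi : (Real.pi : ℂ) ≠ 0 := by exact_mod_cast Real.pi_ne_zero
  have h3 : (2 * Real.pi * Complex.I : ℂ) ≠ 0 := by
    simp [hpi, Complex.I_ne_zero]
  exact (mul_eq_zero.1 h2).resolve_left h3

lemma pot_sym {a : Fin 3 → K → ℂ} (ha : ∀ i k, a i (-k) = star (a i k)) (i : Fin 3) (k : K) :
    pot a i (-k) = star (pot a i k) := by
  unfold pot
  simp only [ha, star_div₀, star_mul', star_sub, Pi.neg_apply, Complex.star_def, Complex.conj_I,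
    Complex.conj_ofReal, map_ofNat, map_intCast, sq_neg]
  push_cast
  ring

lemma norm_pot_le (a : Fin 3 → K → ℂ) (i : Fin 3) (k : K) : ‖pot a i k‖ ≤ ‖a (i + 2) k‖ + ‖a (i + 1) k‖ := by
  by_cases hk : k = 0
  · subst hk
    have : pot a i 0 = 0 := by simp [pot]
    rw [this, norm_zero]; positivity
  · have h1 := one_le_nk hk
    have h2 : ∀ j, |(k j : ℝ)| ≤ sq k := fun j => by
      rw [← nk_sq]
      have := abs_le_nk k j
      nlinarith
    have hs : 0 < sq k := by rw [← nk_sq]; positivity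
    unfold pot
    rw [norm_div, norm_mul, Complex.norm_I, one_mul, norm_mul, norm_mul, Complex.norm_real, Complex.norm_real,
      Complex.norm_ofNat, Real.norm_eq_abs, Real.norm_eq_abs, abs_of_pos Real.pi_pos, abs_of_pos hs]
    have hpi : 1 ≤ 2 * Real.pi := by linarith [Real.pi_gt_three]
    rw [div_le_iff₀ (by positivity)]
    calc ‖(k (i + 1) : ℂ) * a (i + 2) k - (k (i + 2) : ℂ) * a (i + 1) k‖
        ≤ |(k (i + 1) : ℝ)| * ‖a (i + 2) k‖ + |(k (i + 2) : ℝ)| * ‖a (i + 1) k‖ := by
          refine (norm_sub_le _ _).trans (le_of_eq ?_)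
          rw [norm_mul, norm_mul, Complex.norm_intCast, Complex.norm_intCast]
      _ ≤ sq k * ‖a (i + 2) k‖ + sq k * ‖a (i + 1) k‖ := by
          gcongr <;> exact h2 _
      _ = (‖a (i + 2) k‖ + ‖a (i + 1) k‖) * (1 * sq k) := by ring
      _ ≤ _ := by gcongr

lemma rap_pot {a : Fin 3 → K → ℂ} (ha : ∀ i, Rap (a i)) (i : Fin 3) : Rap (pot a i) := by
  intro n
  refine Summable.of_nonneg_of_le (fun k => by positivity) (fun k => ?_) ((ha (i + 2) n).add (ha (i + 1) n))
  rw [← mul_add]
  exact mul_le_mul_of_nonneg_left (norm_pot_le a i k) (by positivity)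

theorem exists_potential {u : E3 → E3} (hu : ∀ i, SP fun x => u x i)
    (hdiv : ∀ x, ∑ i, pd i (fun y => u y i) x = 0) :
    ∃ B : Fin 3 → E3 → ℝ, (∀ i, SP (B i)) ∧ ∀ x i, u x i = (∫ y in cube, u y i) + cu B i x := by
  have hr : ∀ i, Rap (fr fun x => u x i) := fun i => H459R3.NS.rap_fr (hu i)
  have hex : ∀ i, ∃ B : E3 → ℝ, SP B ∧ (∀ x, (B x : ℂ) = S (pot (fun i => fr fun x => u x i) i) x) ∧
      fr B = pot (fun i => fr fun x => u x i) i := fun i =>
    exists_SP (rap_pot hr i) (pot_sym (fun i k => fr_neg _ k) i)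
  choose B hB hBS hBf using hex
  refine ⟨B, hB, fun x i => ?_⟩
  have hf : SP fun x => (u x i - ∫ y in cube, u y i) - cu B i x :=
    SP.sub (SP.sub (hu i) (SP.const _)) (cu_SP hB i)
  have hz : fr (fun x => (u x i - ∫ y in cube, u y i) - cu B i x) = 0 := by
    funext k
    rw [fr_sub (SP.sub (hu i) (SP.const _)) (cu_SP hB i), fr_sub (hu i) (SP.const _), fr_const, fr_cu hB]
    have e : (fun i => fr (B i)) = pot (fun i => fr fun x => u x i) := funext hBf
    rw [e]
    by_cases hk : k = 0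
    · subst hk
      rw [if_pos rfl, cF_zero, fr_zero]
      simp
    · rw [if_neg hk, cF_pot hk (fr_div hu hdiv k)]
      simp
  have h := H459R3.NS.S_fr hf x
  rw [hz] at h
  have h0 : S (0 : K → ℂ) x = 0 := by simp [S]
  rw [h0] at h
  have h1 : (u x i - ∫ y in cube, u y i) - cu B i x = 0 := by exact_mod_cast h.symm
  linarith

end Pool.Agent.K1H11.NS
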