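import Pool.Agent.K1H11.NS.Reg

open MeasureTheory Set Filter Topology
open scoped ENNReal NNReal ContDiff

namespace Pool.Agent.K1H11.NS

/-- The linear form `(s, y) ↦ s b0 + ∑ y_j b_j`. -/
noncomputable def Ph (b0 : ℂ) (b : Fin 3 → ℂ) : (ℝ × E3) →L[ℝ] ℂ :=
  b0 • (Complex.ofRealCLM.comp (ContinuousLinearMap.fst ℝ ℝ E3)) +
    ∑ j, b j • (Complex.ofRealCLM.comp ((ContinuousLinearMap.proj (R := ℝ) (φ := fun _ : Fin 3 => ℝ) j).comp
      (ContinuousLinearMap.snd ℝ ℝ E3)))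

lemma Ph_apply (b0 : ℂ) (b : Fin 3 → ℂ) (p : ℝ × E3) :
    Ph b0 b p = b0 * (p.1 : ℂ) + ∑ j, b j * (p.2 j : ℂ) := by
  simp [Ph]

lemma norm_Ph_le (b0 : ℂ) (b : Fin 3 → ℂ) : ‖Ph b0 b‖ ≤ ‖b0‖ + ∑ j, ‖b j‖ := by
  refine ContinuousLinearMap.opNorm_le_bound _ (by positivity) fun p => ?_
  rw [Ph_apply]
  calc ‖b0 * (p.1 : ℂ) + ∑ j, b j * (p.2 j : ℂ)‖ ≤ ‖b0 * (p.1 : ℂ)‖ + ∑ j, ‖b j * (p.2 j : ℂ)‖ :=
        (norm_add_le _ _).trans (add_le_add le_rfl (norm_sum_le _ _))
    _ ≤ ‖b0‖ * ‖p‖ + ∑ j, ‖b j‖ * ‖p‖ := by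
        refine add_le_add ?_ (Finset.sum_le_sum fun j _ => ?_)
        · rw [norm_mul, Complex.norm_real]
          exact mul_le_mul_of_nonneg_left (norm_fst_le p) (norm_nonneg _)
        · rw [norm_mul, Complex.norm_real]
          exact mul_le_mul_of_nonneg_left ((norm_le_pi_norm p.2 j).trans (norm_snd_le p)) (norm_nonneg _)
    _ = _ := by rw [← Finset.sum_mul]; ring

/-- the characters -/
noncomputable def ex (k : K) (x : E3) : ℂ :=
  Complex.exp (2 * Real.pi * Complex.I * ∑ j, (k j : ℂ) * (x j : ℂ))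

lemma norm_ex (k : K) (x : E3) : ‖ex k x‖ = 1 := by
  unfold ex
  have : (2 * Real.pi * Complex.I * ∑ j, (k j : ℂ) * (x j : ℂ)) =
      ((2 * Real.pi * ∑ j, (k j : ℝ) * x j : ℝ) : ℂ) * Complex.I := by push_cast; ring
  rw [this, Complex.norm_exp_ofReal_mul_I]

lemma ex_add (k l : K) (x : E3) : ex (k + l) x = ex k x * ex l x := by
  unfold ex
  rw [← Complex.exp_add, ← mul_add, ← Finset.sum_add_distrib]
  congr 2
  refine Finset.sum_congr rfl fun j _ => ?_
  simp only [Pi.add_apply, Int.cast_add]; ring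

lemma ex_neg (k : K) (x : E3) : ex (-k) x = star (ex k x) := by
  unfold ex
  rw [Complex.star_def, ← Complex.exp_conj]
  congr 1
  simp only [map_mul, map_sum, Complex.conj_I, Complex.conj_ofReal, Pi.neg_apply, Int.cast_neg]
  have h2 : (starRingEnd ℂ) 2 = 2 := Complex.conj_ofReal 2
  have h3 : ∀ j, (starRingEnd ℂ) (k j : ℂ) = (k j : ℂ) := fun j => by simp
  simp only [h2, h3, neg_mul, Finset.sum_neg_distrib]
  ring

lemma ex_cont (k : K) : Continuous (ex k) := by
  unfold ex; fun_prop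

/-- the factor of `∂_j` -/
noncomputable def fj (k : K) (j : Fin 3) : ℂ := 2 * Real.pi * Complex.I * (k j : ℂ)

lemma norm_fj_le (k : K) (j : Fin 3) : ‖fj k j‖ ≤ 2 * Real.pi * pw k ^ 1 := by
  unfold fj
  rw [norm_mul, norm_mul, norm_mul, Complex.norm_I, Complex.norm_intCast, Complex.norm_real]
  have h1 : |(k j : ℝ)| ≤ pw k := (abs_le_nk k j).trans (nk_le_pw k)
  simp only [Complex.norm_ofNat, Real.norm_eq_abs, abs_of_pos Real.pi_pos, pow_one, mul_one]
  exact mul_le_mul_of_nonneg_left h1 (by positivity)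

/-- Fourier multiplier of `∂_j` -/
noncomputable def dS (j : Fin 3) (c : SFam) : SFam := fun k t => fj k j * c k t

lemma TT.dS {n : ℕ} {c : SFam} (h : TT n c) (j : Fin 3) : TT n (dS j c) :=
  TT.mul (fun k => norm_fj_le k j) h

/-- Fourier series -/
noncomputable def SF (c : SFam) (p : ℝ × E3) : ℂ := ∑' k, c k p.1 * ex k p.2

lemma SF_cont {c : SFam} (hc : RD c) (hcc : ∀ k, Continuous (c k)) : Continuous (SF c) := by
  obtain ⟨b, hb, h⟩ := hc.summ
  unfold SF
  refine continuous_tsum (u := b) (fun k => ?_) hb fun k p => ?_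
  · exact ((hcc k).comp continuous_fst).mul ((ex_cont k).comp continuous_snd)
  · rw [norm_mul, norm_ex, mul_one]; exact h k p.1

lemma SF_summable {c : SFam} (hc : RD c) (p : ℝ × E3) : Summable fun k => c k p.1 * ex k p.2 := by
  obtain ⟨b, hb, h⟩ := hc.summ
  refine Summable.of_norm_bounded hb fun k => ?_
  rw [norm_mul, norm_ex, mul_one]; exact h k p.1

lemma ex_hasFDerivAt (k : K) (p : ℝ × E3) :
    HasFDerivAt (fun p : ℝ × E3 => ex k p.2) (Ph 0 fun j => fj k j * ex k p.2) p := by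
  have h1 : HasFDerivAt (fun p : ℝ × E3 => (2 * Real.pi * Complex.I * ∑ j, (k j : ℂ) * (p.2 j : ℂ)))
      (Ph 0 fun j => fj k j) p := by
    have h2 : (fun p : ℝ × E3 => (2 * Real.pi * Complex.I * ∑ j, (k j : ℂ) * (p.2 j : ℂ)))
        = fun p => Ph 0 (fun j => fj k j) p := by
      funext p
      rw [Ph_apply]
      unfold fj
      rw [Finset.mul_sum]
      simp only [zero_mul, zero_add]
      exact Finset.sum_congr rfl fun j _ => by ring
    rw [h2]
    exact (Ph 0 fun j => fj k j).hasFDerivAt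
  have h3 := h1.cexp
  refine h3.congr_fderiv (ContinuousLinearMap.ext fun q => ?_)
  rw [_root_.smul_apply, Ph_apply, Ph_apply]
  simp only [zero_mul, zero_add, smul_eq_mul]
  rw [Finset.mul_sum]
  refine Finset.sum_congr rfl fun j _ => ?_
  unfold ex
  ring

lemma term_hasFDerivAt {c : SFam} {k : K} {p : ℝ × E3} {d : ℂ} (h : HasDerivAt (c k) d p.1) :
    HasFDerivAt (fun p : ℝ × E3 => c k p.1 * ex k p.2)
      (Ph (d * ex k p.2) fun j => (fj k j * c k p.1) * ex k p.2) p := by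
  have h1 : HasFDerivAt (fun p : ℝ × E3 => c k p.1) (Ph d 0) p := by
    have h2 := h.hasFDerivAt.comp p (hasFDerivAt_fst (𝕜 := ℝ) (E := ℝ) (F := E3) (p := p))
    refine h2.congr_fderiv (ContinuousLinearMap.ext fun q => ?_)
    rw [Ph_apply]
    simp [mul_comm]
  have h3 := h1.fun_mul (ex_hasFDerivAt k p)
  refine h3.congr_fderiv (ContinuousLinearMap.ext fun q => ?_)
  rw [_root_.add_apply, _root_.smul_apply, _root_.smul_apply,
    Ph_apply, Ph_apply, Ph_apply]
  simp only [Pi.zero_apply, zero_mul, Finset.sum_const_zero, add_zero, zero_add, smul_eq_mul]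
  rw [Finset.mul_sum, add_comm]
  congr 1
  · ring
  · exact Finset.sum_congr rfl fun j _ => by ring

/-- time-space domain -/
def Dm : Set (ℝ × E3) := Ici 0 ×ˢ univ

def Dm' : Set (ℝ × E3) := Ioi 0 ×ˢ univ

lemma closure_Dm' : closure Dm' = Dm := by
  unfold Dm' Dm
  rw [closure_prod_eq, closure_Ioi, closure_univ]

lemma Dm_uniq : UniqueDiffOn ℝ Dm := (uniqueDiffOn_Ici 0).prod uniqueDiffOn_univ

lemma Dm'_open : IsOpen Dm' := isOpen_Ioi.prod isOpen_univ

lemma Dm'_convex : Convex ℝ Dm' := (convex_Ioi 0).prod convex_univ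

lemma tsum_Ph {b0 : K → ℂ} {b : K → Fin 3 → ℂ} (h0 : Summable b0) (h : ∀ j, Summable fun k => b k j) :
    ∑' k, Ph (b0 k) (b k) = Ph (∑' k, b0 k) (fun j => ∑' k, b k j) := by
  have hs : HasSum (fun k => Ph (b0 k) (b k)) (Ph (∑' k, b0 k) (fun j => ∑' k, b k j)) := by
    unfold Ph
    refine (h0.hasSum.smul_const _).add ?_
    exact hasSum_sum fun j _ => (h j).hasSum.smul_const _
  exact hs.tsum_eq

lemma SF_hasFDerivAt {c c' : SFam} (hc : RD c) (hc' : RD c')
    (h1 : ∀ k t, 0 < t → HasDerivAt (c k) (c' k t) t) {p : ℝ × E3} (hp : p ∈ Dm') :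
    HasFDerivAt (SF c) (Ph (SF c' p) fun j => SF (dS j c) p) p := by
  obtain ⟨b, hb, h⟩ := hc.summ
  obtain ⟨b', hb', h'⟩ := hc'.summ
  have hdS : ∀ j, RD (dS j c) := fun j => hc.mul (fun k => norm_fj_le k j)
  choose bd hbd hbd' using fun j => (hdS j).summ
  have key := hasFDerivAt_tsum_of_isPreconnected (𝕜 := ℝ) (s := Dm')
    (u := fun k => b' k + ∑ j, bd j k)
    (f := fun k (p : ℝ × E3) => c k p.1 * ex k p.2)
    (f' := fun k (p : ℝ × E3) => Ph (c' k p.1 * ex k p.2) fun j => (fj k j * c k p.1) * ex k p.2)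
    (hb'.add (summable_sum fun j _ => hbd j)) Dm'_open Dm'_convex.isPreconnected
    (fun k p hp => term_hasFDerivAt (h1 k p.1 hp.1)) (fun k p hp => ?_) (x₀ := p) hp
    (SF_summable hc p) hp
  · refine key.congr_fderiv ?_
    exact tsum_Ph (SF_summable hc' p) (fun j => SF_summable (hdS j) p)
  · refine (norm_Ph_le _ _).trans (add_le_add ?_ (Finset.sum_le_sum fun j _ => ?_))
    · rw [norm_mul, norm_ex, mul_one]; exact h' k p.1
    · rw [norm_mul, norm_ex, mul_one]; exact hbd' j k p.1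

lemma Ph_cont {X : Type*} [TopologicalSpace X] {b0 : X → ℂ} {b : X → Fin 3 → ℂ} (h0 : Continuous b0)
    (h : ∀ j, Continuous fun x => b x j) : Continuous fun x => Ph (b0 x) (b x) := by
  unfold Ph
  exact (h0.smul continuous_const).add (continuous_finsetSum _ fun j _ => (h j).smul continuous_const)

lemma SF_hasFDerivWithinAt {n : ℕ} {c : SFam} (hc : TT (n + 1) c) {c' : SFam}
    (h1 : ∀ k t, 0 < t → HasDerivAt (c k) (c' k t) t) (hc' : TT n c') (p : ℝ × E3) :
    HasFDerivWithinAt (SF c) (Ph (SF c' p) fun j => SF (dS j c) p) Dm p := by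
  have hF : ∀ q ∈ Dm', HasFDerivAt (SF c) (Ph (SF c' q) fun j => SF (dS j c) q) q :=
    fun q hq => SF_hasFDerivAt hc.rd hc'.rd h1 hq
  have hcont : Continuous fun q => Ph (SF c' q) fun j => SF (dS j c) q :=
    Ph_cont (SF_cont hc'.rd hc'.ct) fun j => SF_cont (hc.dS j).rd (hc.dS j).ct
  rw [← closure_Dm']
  refine hasFDerivWithinAt_closure_of_tendsto_fderiv
    (fun q hq => (hF q hq).differentiableAt.differentiableWithinAt) Dm'_convex Dm'_open
    (fun q _ => (SF_cont hc.rd hc.ct).continuousWithinAt) ?_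
  have h3 : Tendsto (fun q => Ph (SF c' q) fun j => SF (dS j c) q) (𝓝[Dm'] p)
      (𝓝 (Ph (SF c' p) fun j => SF (dS j c) p)) := hcont.continuousAt.continuousWithinAt
  refine h3.congr' ?_
  filter_upwards [self_mem_nhdsWithin] with q hq
  exact (hF q hq).fderiv.symm

lemma SF_contDiffOn_nat (n : ℕ) : ∀ {c : SFam}, TT n c → ContDiffOn ℝ n (SF c) Dm := by
  induction n with
  | zero =>
    intro c hc
    rw [Nat.cast_zero, contDiffOn_zero]
    exact (SF_cont hc.rd hc.ct).continuousOn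
  | succ n ih =>
    intro c hc
    obtain ⟨c', h1, hc'⟩ := hc.2.2
    have hF := SF_hasFDerivWithinAt hc h1 hc'
    rw [Nat.cast_succ]
    refine contDiffOn_succ_of_fderivWithin (fun p _ => (hF p).differentiableWithinAt) (fun h => ?_) ?_
    · exact absurd h (by simp)
    · refine ContDiffOn.congr (f := fun q => Ph (SF c' q) fun j => SF (dS j c) q) ?_
        fun p hp => (hF p).fderivWithin (Dm_uniq p hp)
      unfold Ph
      refine ((ih hc').smul contDiffOn_const).add (ContDiffOn.sum fun j _ => ?_)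
      exact (ih (hc.pred.dS j)).smul contDiffOn_const

lemma SF_contDiffOn {c : SFam} (h : ∀ n, TT n c) : ContDiffOn ℝ ∞ (SF c) Dm :=
  contDiffOn_infty.2 fun n => SF_contDiffOn_nat n (h n)

end Pool.Agent.K1H11.NS
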