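import Pool.Agent.K1H11.NS.Reg2

open MeasureTheory Set Filter Topology
open scoped ENNReal NNReal ContDiff

namespace Pool.Agent.K1H11.NS

/-! ### Algebra of Fourier series -/

lemma SF_add {c d : SFam} (hc : RD c) (hd : RD d) (p : ℝ × E3) :
    SF (fun k t => c k t + d k t) p = SF c p + SF d p := by
  unfold SF
  rw [← (SF_summable hc p).tsum_add (SF_summable hd p)]
  exact tsum_congr fun k => by ring

lemma SF_sum {c : Fin 3 → SFam} (hc : ∀ j, RD (c j)) (p : ℝ × E3) :
    SF (fun k t => ∑ j, c j k t) p = ∑ j, SF (c j) p := by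
  unfold SF
  rw [← Summable.tsum_finsetSum fun j _ => SF_summable (hc j) p]
  exact tsum_congr fun k => by rw [Finset.sum_mul]

lemma SF_const_mul (a : ℂ) (c : SFam) (p : ℝ × E3) :
    SF (fun k t => a * c k t) p = a * SF c p := by
  unfold SF
  rw [← tsum_mul_left]
  exact tsum_congr fun k => by ring

lemma SF_mul {c d : SFam} (hc : RD c) (hd : RD d) (p : ℝ × E3) :
    SF c p * SF d p = SF (cvv c d) p := by
  have hf : Summable fun k => ‖c k p.1 * ex k p.2‖ := (SF_summable hc p).norm
  have hg : Summable fun k => ‖d k p.1 * ex k p.2‖ := (SF_summable hd p).norm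
  have h1 := summable_mul_of_summable_norm hf hg
  let e : K × K ≃ K × K :=
    { toFun := fun p => (p.2, p.1 - p.2)
      invFun := fun p => (p.1 + p.2, p.1)
      left_inv := fun p => by simp
      right_inv := fun p => by simp }
  have h2 : Summable fun z : K × K => (c z.2 p.1 * ex z.2 p.2) * (d (z.1 - z.2) p.1 * ex (z.1 - z.2) p.2) :=
    (e.summable_iff).2 h1
  unfold SF cvv
  rw [tsum_mul_tsum_of_summable_norm hf hg, ← e.tsum_eq]
  refine h2.tsum_prod.trans ?_
  refine tsum_congr fun k => ?_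
  rw [← tsum_mul_right]
  refine tsum_congr fun l => ?_
  have h3 : ex k p.2 = ex l p.2 * ex (k - l) p.2 := by rw [← ex_add, add_sub_cancel]
  show (c l p.1 * ex l p.2) * (d (k - l) p.1 * ex (k - l) p.2) = _
  rw [h3]; ring

lemma SF_real {c : SFam} (h : ∀ k t, c (-k) t = star (c k t)) (p : ℝ × E3) : (SF c p).im = 0 := by
  have h1 : star (SF c p) = SF c p := by
    unfold SF
    rw [tsum_star]
    rw [← (Equiv.neg K).tsum_eq]
    refine tsum_congr fun k => ?_
    simp only [Equiv.neg_apply, star_mul', h, ex_neg, star_star]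
  rw [Complex.star_def] at h1
  exact Complex.conj_eq_iff_im.1 h1

/-! ### divergence free -/

lemma sol_div {c : ℝ} {a : Wt} (ha : Sup a) {V : K → C3} {u : Fam} (hV : ∀ k, dt k (V k) = 0) (h : Sol c a V u) (k : K) (t : ℝ) :
    dt k (u k t) = 0 := by
  have hud : Dom u := by
    obtain ⟨b, hb, hb'⟩ := h.dom
    have hb0 : ∀ k, 0 ≤ b k := fun k => (norm_nonneg _).trans (hb' k 0)
    refine ⟨b, hb.of_nonneg_of_le hb0 fun k => ?_, hb'⟩
    calc b k = 1 * b k := (one_mul _).symm
      _ ≤ _ := mul_le_mul_of_nonneg_right (one_le_om ha.le k) (hb0 k)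
  have hBc := Bt_cont h.cf hud
  let L : C3 →L[ℝ] ℂ := ∑ j, ((k j : ℝ) • (ContinuousLinearMap.proj (R := ℝ) (φ := fun _ : Fin 3 => ℂ) j))
  have hL : ∀ v, L v = dt k v := by
    intro v
    simp [L, dt]
  rw [h.eq k t, ← hL, map_add, map_smul]
  have h1 : L (V k) = 0 := by rw [hL, hV]
  have h2 : L (Duh c (Bt u) k t) = 0 := by
    unfold Duh
    rw [← ContinuousLinearMap.intervalIntegral_comp_comm]
    · have : ∀ s, L (Real.exp (-(c * sq k * (max t 0 - s))) • Bt u k s) = 0 := by
        intro s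
        rw [map_smul, hL]
        have : dt k (Bt u k s) = 0 := Bf_div _ _ k
        rw [this, smul_zero]
      simp [this]
    · have := hBc k
      exact (by fun_prop : Continuous fun s => Real.exp (-(c * sq k * (max t 0 - s))) • Bt u k s).intervalIntegrable _ _
  rw [h1, h2]; simp

/-! ### the pressure and the equation on the Fourier side -/

/-- component families -/
def cf' (u : Fam) (i : Fin 3) : SFam := fun k t => u k t i

/-- pressure -/
noncomputable def PF (u : Fam) : SFam := fun k t =>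
  ∑ j, ∑ m, (-((k j : ℂ) * (k m : ℂ) / ((sq k : ℝ) : ℂ))) * cvv (cf' u j) (cf' u m) k t

lemma TT_PF {u : Fam} {n : ℕ} (h : ∀ i, TT n (cf' u i)) : TT n (PF u) := by
  unfold PF
  refine TT.sum _ fun j _ => TT.sum _ fun m _ => TT.mul (C := 1) (r := 0) (fun k => ?_) ((h j).conv (h m))
  rw [pow_zero, mul_one, norm_neg, norm_div, norm_mul, Complex.norm_real, Complex.norm_intCast, Complex.norm_intCast,
    Real.norm_of_nonneg (sq_nonneg' k)]
  apply div_le_one_of_le₀ _ (sq_nonneg' k)
  rw [← nk_mul_self]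
  exact mul_le_mul (abs_le_nk k j) (abs_le_nk k m) (abs_nonneg _) (nk_nonneg k)

lemma TT_dU {c : ℝ} {u : Fam} {n : ℕ} (h : ∀ i, TT n (cf' u i)) (i : Fin 3) : TT n (dU c u i) := by
  unfold dU
  refine TT.add (TT.mul (norm_sq_le c) (h i)) ?_
  refine TT.sum _ fun j _ => TT.sum _ fun m _ => ?_
  refine TT.mul (C := 4 * Real.pi) (r := 1) (fun k => ?_) ((h j).conv (h m))
  refine (norm_coef_le k i j m).trans ?_
  rw [pow_one]
  exact mul_le_mul_of_nonneg_left (nk_le_pw k) (by positivity)

lemma cvv_summ {c d : SFam} (hc : RD c) (hd : RD d) (k : K) (t : ℝ) : Summable fun l => c l t * d (k - l) t := by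
  obtain ⟨b, hb, h⟩ := hc.summ
  obtain ⟨b', hb', h'⟩ := hd.summ
  have hb0' : ∀ k, 0 ≤ b' k := fun k => (norm_nonneg _).trans (h' k 0)
  refine Summable.of_norm_bounded (hb.mul_right (∑' l, b' l)) fun l => ?_
  rw [norm_mul]
  exact mul_le_mul (h l t) ((h' _ t).trans (hb'.le_tsum _ fun _ _ => hb0' _)) (norm_nonneg _)
    ((norm_nonneg _).trans (h l t))

lemma fourier_eq {ν : ℝ} {u : Fam} (hu : ∀ i, RD (cf' u i)) (hdiv : ∀ k t, dt k (u k t) = 0) (i : Fin 3) (k : K)
    (t : ℝ) : dU (4 * Real.pi ^ 2 * ν) u i k t + ∑ j, cvv (cf' u j) (dS j (cf' u i)) k t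
      = (ν : ℂ) * ∑ j, dS j (dS j (cf' u i)) k t + (-1) * dS i (PF u) k t := by
  have hd : ∀ j, RD (dS j (cf' u i)) := fun j => (hu i).mul (fun k => norm_fj_le k j)
  have h1 : ∑ j, cvv (cf' u j) (dS j (cf' u i)) k t = ∑ j, fj k j * cvv (cf' u j) (cf' u i) k t := by
    unfold cvv
    rw [← Summable.tsum_finsetSum fun j _ => cvv_summ (hu j) (hd j) k t]
    simp_rw [← tsum_mul_left]
    rw [← Summable.tsum_finsetSum fun j _ => (cvv_summ (hu j) (hu i) k t).mul_left _]
    refine tsum_congr fun l => ?_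
    have h2 : ∑ j, fj l j * cf' u j l t = 0 := by
      have := hdiv l t
      unfold dt at this
      unfold fj cf'
      calc ∑ j, 2 * Real.pi * Complex.I * (l j : ℂ) * u l t j
          = 2 * Real.pi * Complex.I * ∑ j, (l j : ℂ) * u l t j := by
            rw [Finset.mul_sum]; exact Finset.sum_congr rfl fun j _ => by ring
        _ = 0 := by rw [this, mul_zero]
    have h3 : ∀ j, fj (k - l) j = fj k j - fj l j := by
      intro j; unfold fj; simp only [Pi.sub_apply, Int.cast_sub]; ring
    calc ∑ j, cf' u j l t * dS j (cf' u i) (k - l) t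
        = ∑ j, fj k j * (cf' u j l t * cf' u i (k - l) t) - (∑ j, fj l j * cf' u j l t) * cf' u i (k - l) t := by
          rw [Finset.sum_mul, ← Finset.sum_sub_distrib]
          refine Finset.sum_congr rfl fun j _ => ?_
          unfold dS
          rw [h3]; ring
      _ = _ := by rw [h2, zero_mul, sub_zero]
  rw [h1]
  unfold dU PF dS
  have hs : ∑ j, fj k j * (fj k j * cf' u i k t) = -(4 * Real.pi ^ 2 * sq k : ℝ) * cf' u i k t := by
    calc ∑ j, fj k j * (fj k j * cf' u i k t) = (∑ j, fj k j * fj k j) * cf' u i k t := by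
          rw [Finset.sum_mul]; exact Finset.sum_congr rfl fun j _ => by ring
      _ = _ := by
          congr 1
          unfold fj sq
          push_cast
          rw [Finset.mul_sum, ← Finset.sum_neg_distrib]
          refine Finset.sum_congr rfl fun j _ => ?_
          linear_combination (4 * (Real.pi : ℂ) ^ 2 * (k j : ℂ) ^ 2) * Complex.I_mul_I
  rw [hs]
  set C : Fin 3 → Fin 3 → ℂ := fun j m => cvv (cf' u j) (cf' u m) k t
  have hC : ∀ j m, cvv (fun k t => u k t j) (fun k t => u k t m) k t = C j m := fun _ _ => rfl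
  simp only [hC]
  have h4 : ∑ j, ∑ m, coef k i j m * C j m = -(∑ j, fj k j * C j i)
      - fj k i * ∑ j, ∑ m, (-((k j : ℂ) * (k m : ℂ) / ((sq k : ℝ) : ℂ))) * C j m := by
    rw [Finset.mul_sum, ← Finset.sum_neg_distrib, ← Finset.sum_sub_distrib]
    refine Finset.sum_congr rfl fun j _ => ?_
    rw [Finset.mul_sum]
    have h5 : fj k j * C j i = ∑ m, (if m = i then 1 else 0) * (fj k j * C j m) := by simp
    rw [h5, ← Finset.sum_neg_distrib, ← Finset.sum_sub_distrib]
    refine Finset.sum_congr rfl fun m _ => ?_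
    unfold coef fj
    ring
  have h6 : ∑ j, fj k j * cvv (cf' u j) (cf' u i) k t = ∑ j, fj k j * C j i := rfl
  rw [h4, h6]
  have h7 : (fun k t => u k t i) k t = cf' u i k t := rfl
  show -((4 * Real.pi ^ 2 * ν * sq k : ℝ) : ℂ) * cf' u i k t + _ + _ = _
  push_cast
  ring

end Pool.Agent.K1H11.NS
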