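import Mathlib

/-!
# A smooth staircase
-/

open MeasureTheory Set Filter Topology
open scoped ContDiff

namespace Pool.Agent.K1H11.NS

/-- The branch of the staircase near the integer `n`. -/
noncomputable def psi (η : ℝ) (n : ℤ) (y : ℝ) : ℝ :=
  (n : ℝ) - 1 / 2 + Real.smoothTransition ((y - n + η) / (2 * η))

/-- The staircase. -/
noncomputable def phi (η : ℝ) (y : ℝ) : ℝ := psi η ⌊y + 1 / 2⌋ y

lemma phi_eq {η : ℝ} (h0 : 0 < η) (h1 : η ≤ 1 / 4) {n : ℤ} {y : ℝ} (ha : (n : ℝ) - 1 + η < y)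
    (hb : y < n + 1 - η) : phi η y = psi η n y := by
  unfold phi
  obtain ⟨m, hm⟩ : ∃ m, m = ⌊y + 1 / 2⌋ := ⟨_, rfl⟩
  rw [← hm]
  have hm1 : (m : ℝ) ≤ y + 1 / 2 := by rw [hm]; exact Int.floor_le _
  have hm2 : y + 1 / 2 < m + 1 := by rw [hm]; exact Int.lt_floor_add_one _
  have a1 : n - 1 ≤ m := by
    have : (n : ℝ) - 1 < m + 1 := by linarith
    have h : n - 1 < m + 1 := by exact_mod_cast this
    omega
  have a2 : m ≤ n + 1 := by
    have : (m : ℝ) < n + 2 := by linarith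
    have h : m < n + 2 := by exact_mod_cast this
    omega
  have h3 : m = n - 1 ∨ m = n ∨ m = n + 1 := by omega
  rcases h3 with rfl | rfl | rfl
  · unfold psi
    push_cast at hm1 hm2 ⊢
    rw [Real.smoothTransition.one_of_one_le (by rw [le_div_iff₀ (by positivity)]; linarith),
      Real.smoothTransition.zero_of_nonpos (x := (y - n + η) / (2 * η))
        (div_nonpos_of_nonpos_of_nonneg (by linarith) (by positivity))]
    ring
  · rfl
  · unfold psi
    push_cast at hm1 hm2 ⊢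
    rw [Real.smoothTransition.zero_of_nonpos (x := (y - (n + 1) + η) / (2 * η))
        (div_nonpos_of_nonpos_of_nonneg (by linarith) (by positivity)),
      Real.smoothTransition.one_of_one_le (by rw [le_div_iff₀ (by positivity)]; linarith)]
    ring

lemma phi_nhds {η : ℝ} (h0 : 0 < η) (h1 : η ≤ 1 / 4) (y : ℝ) : phi η =ᶠ[𝓝 y] psi η ⌊y + 1 / 2⌋ := by
  have hm1 : (⌊y + 1 / 2⌋ : ℝ) ≤ y + 1 / 2 := Int.floor_le _
  have hm2 : y + 1 / 2 < ⌊y + 1 / 2⌋ + 1 := Int.lt_floor_add_one _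
  have : Ioo ((⌊y + 1 / 2⌋ : ℝ) - 1 + η) (⌊y + 1 / 2⌋ + 1 - η) ∈ 𝓝 y :=
    Ioo_mem_nhds (by linarith) (by linarith)
  filter_upwards [this] with z hz
  exact phi_eq h0 h1 hz.1 hz.2

lemma psi_contDiff (η : ℝ) (n : ℤ) : ContDiff ℝ ∞ (psi η n) := by
  unfold psi
  refine contDiff_const.add (Real.smoothTransition.contDiff.comp ?_)
  exact ((contDiff_id.sub contDiff_const).add contDiff_const).div_const _

lemma phi_contDiff {η : ℝ} (h0 : 0 < η) (h1 : η ≤ 1 / 4) : ContDiff ℝ ∞ (phi η) := by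
  rw [contDiff_iff_contDiffAt]
  intro y
  exact ((psi_contDiff η _).contDiffAt).congr_of_eventuallyEq (phi_nhds h0 h1 y)

lemma phi_add_one (η y : ℝ) : phi η (y + 1) = phi η y + 1 := by
  unfold phi
  rw [show y + 1 + 1 / 2 = (y + 1 / 2) + 1 by ring, Int.floor_add_one]
  unfold psi
  push_cast
  rw [show y + 1 - ((⌊y + 1 / 2⌋ : ℝ) + 1) + η = y - ⌊y + 1 / 2⌋ + η by ring]
  ring

lemma sT_deriv_zero {t : ℝ} (ht : t < 0 ∨ 1 < t) : deriv Real.smoothTransition t = 0 := by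
  rcases ht with h | h
  · have : Real.smoothTransition =ᶠ[𝓝 t] fun _ => (0 : ℝ) := by
      filter_upwards [Iio_mem_nhds h] with z hz
      exact Real.smoothTransition.zero_of_nonpos (le_of_lt hz)
    rw [this.deriv_eq]; simp
  · have : Real.smoothTransition =ᶠ[𝓝 t] fun _ => (1 : ℝ) := by
      filter_upwards [Ioi_mem_nhds h] with z hz
      exact Real.smoothTransition.one_of_one_le (le_of_lt hz)
    rw [this.deriv_eq]; simp

lemma phi_deriv {η : ℝ} (h0 : 0 < η) (h1 : η ≤ 1 / 4) (y : ℝ) :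
    deriv (phi η) y = deriv Real.smoothTransition ((y - ⌊y + 1 / 2⌋ + η) / (2 * η)) * (1 / (2 * η)) := by
  rw [(phi_nhds h0 h1 y).deriv_eq]
  have hd : HasDerivAt (fun z : ℝ => (z - ⌊y + 1 / 2⌋ + η) / (2 * η)) (1 / (2 * η)) y :=
    (((hasDerivAt_id' y).sub_const _).add_const _).div_const _
  have hs : HasDerivAt Real.smoothTransition (deriv Real.smoothTransition ((y - ⌊y + 1 / 2⌋ + η) / (2 * η)))
      ((y - ⌊y + 1 / 2⌋ + η) / (2 * η)) :=
    ((Real.smoothTransition.contDiff (n := 1)).differentiable (by norm_num) _).hasDerivAt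
  exact ((hs.comp y hd).const_add _).deriv

lemma phi_deriv_zero {η : ℝ} (h0 : 0 < η) (h1 : η ≤ 1 / 4) {y : ℝ} (hy : ∀ m : ℤ, η < |y - m|) :
    deriv (phi η) y = 0 := by
  rw [phi_deriv h0 h1, sT_deriv_zero, zero_mul]
  have := hy ⌊y + 1 / 2⌋
  rcases lt_abs.1 this with h | h
  · right
    rw [lt_div_iff₀ (by positivity)]; linarith
  · left
    exact div_neg_of_neg_of_pos (by linarith) (by positivity)

lemma exists_sT_bound : ∃ C : ℝ, 0 < C ∧ ∀ t, |deriv Real.smoothTransition t| ≤ C := by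
  have hc : Continuous (deriv Real.smoothTransition) :=
    (Real.smoothTransition.contDiff (n := 1)).continuous_deriv le_rfl
  obtain ⟨C, hC⟩ := (isCompact_Icc (a := (0 : ℝ)) (b := 1)).exists_bound_of_continuousOn hc.continuousOn
  refine ⟨|C| + 1, by positivity, fun t => ?_⟩
  by_cases ht : t < 0 ∨ 1 < t
  · rw [sT_deriv_zero ht, abs_zero]; positivity
  · push Not at ht
    exact ((hC t ht).trans (le_abs_self C)).trans (by linarith)

/-- The distance to the staircase. -/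
noncomputable def sst (η : ℝ) (y : ℝ) : ℝ := y - phi η y

lemma sst_contDiff {η : ℝ} (h0 : 0 < η) (h1 : η ≤ 1 / 4) : ContDiff ℝ ∞ (sst η) :=
  contDiff_id.sub (phi_contDiff h0 h1)

lemma sst_per (η y : ℝ) : sst η (y + 1) = sst η y := by
  unfold sst; rw [phi_add_one]; ring

lemma per_bounded {f : ℝ → ℝ} (hf : Continuous f) (hp : ∀ y, f (y + 1) = f y) :
    ∃ C : ℝ, 0 ≤ C ∧ ∀ y, |f y| ≤ C := by
  obtain ⟨C, hC⟩ := (isCompact_Icc (a := (0 : ℝ)) (b := 1)).exists_bound_of_continuousOn hf.continuousOn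
  refine ⟨|C|, abs_nonneg _, fun y => ?_⟩
  have hper : Function.Periodic f 1 := hp
  obtain ⟨z, hz, hz'⟩ := hper.exists_mem_Ico₀ one_pos y
  rw [hz']
  exact (hC z ⟨hz.1, hz.2.le⟩).trans (le_abs_self C)

lemma per_deriv {f : ℝ → ℝ} (hp : ∀ y, f (y + 1) = f y) (y : ℝ) : deriv f (y + 1) = deriv f y := by
  have : (fun s => f (s + 1)) = f := funext hp
  rw [← deriv_comp_add_const, this]

/-- Bounds for the distance to the staircase and its first two derivatives. -/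
lemma sst_bounds {η : ℝ} (h0 : 0 < η) (h1 : η ≤ 1 / 4) :
    ∃ C : ℝ, 1 ≤ C ∧ ∀ y, |sst η y| ≤ C ∧ |deriv (sst η) y| ≤ C ∧ |deriv (deriv (sst η)) y| ≤ C := by
  have hs := sst_contDiff h0 h1
  have hs1 : ContDiff ℝ ∞ (deriv (sst η)) := by
    have := hs; rw [contDiff_infty_iff_deriv] at this; exact this.2
  have hs2 : ContDiff ℝ ∞ (deriv (deriv (sst η))) := by
    have := hs1; rw [contDiff_infty_iff_deriv] at this; exact this.2
  obtain ⟨C0, a0, b0⟩ := per_bounded hs.continuous (sst_per η)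
  obtain ⟨C1, a1, b1⟩ := per_bounded hs1.continuous (per_deriv (sst_per η))
  obtain ⟨C2, a2, b2⟩ := per_bounded hs2.continuous (per_deriv (per_deriv (sst_per η)))
  refine ⟨1 + C0 + C1 + C2, by linarith, fun y => ⟨?_, ?_, ?_⟩⟩
  · linarith [b0 y]
  · linarith [b1 y]
  · linarith [b2 y]

/-- `exp (-i θ s(y))` -/
noncomputable def hth (η θ : ℝ) (y : ℝ) : ℂ := Complex.exp (-(Complex.I * ((θ * sst η y : ℝ) : ℂ)))

lemma hth_norm (η θ y : ℝ) : ‖hth η θ y‖ = 1 := by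
  unfold hth
  rw [show -(Complex.I * ((θ * sst η y : ℝ) : ℂ)) = ((-(θ * sst η y) : ℝ) : ℂ) * Complex.I by push_cast; ring,
    Complex.norm_exp_ofReal_mul_I]

lemma hth_per (η θ y : ℝ) : hth η θ (y + 1) = hth η θ y := by
  unfold hth; rw [sst_per]

lemma hth_contDiff {η : ℝ} (h0 : 0 < η) (h1 : η ≤ 1 / 4) (θ : ℝ) : ContDiff ℝ ∞ (hth η θ) := by
  unfold hth
  refine Complex.contDiff_exp.comp (ContDiff.neg ?_)
  refine contDiff_const.mul (Complex.ofRealCLM.contDiff.comp ?_)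
  exact contDiff_const.mul (sst_contDiff h0 h1)

lemma hth_sub_one (η θ y : ℝ) : ‖1 - hth η θ y‖ ≤ |θ| * |sst η y| := by
  unfold hth
  rw [show -(Complex.I * ((θ * sst η y : ℝ) : ℂ)) = Complex.I * ((-(θ * sst η y) : ℝ) : ℂ) by push_cast; ring,
    norm_sub_rev]
  refine (Real.norm_exp_I_mul_ofReal_sub_one_le).trans ?_
  rw [Real.norm_eq_abs, abs_neg, abs_mul]

lemma hth_deriv {η : ℝ} (h0 : 0 < η) (h1 : η ≤ 1 / 4) (θ y : ℝ) :
    HasDerivAt (hth η θ) (-(Complex.I * ((θ * deriv (sst η) y : ℝ) : ℂ)) * hth η θ y) y := by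
  have hs : HasDerivAt (sst η) (deriv (sst η) y) y :=
    ((sst_contDiff h0 h1).differentiable (by simp) y).hasDerivAt
  have h2 : HasDerivAt (fun y => -(Complex.I * ((θ * sst η y : ℝ) : ℂ)))
      (-(Complex.I * ((θ * deriv (sst η) y : ℝ) : ℂ))) y :=
    (((hs.const_mul θ).ofReal_comp).const_mul Complex.I).neg
  have h3 := h2.cexp
  unfold hth
  rw [mul_comm]
  exact h3

lemma hth_deriv2 {η : ℝ} (h0 : 0 < η) (h1 : η ≤ 1 / 4) (θ y : ℝ) :
    iteratedDeriv 2 (hth η θ) y = (-(Complex.I * ((θ * deriv (deriv (sst η)) y : ℝ) : ℂ)) * hth η θ y)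
      + (-(Complex.I * ((θ * deriv (sst η) y : ℝ) : ℂ))) *
        (-(Complex.I * ((θ * deriv (sst η) y : ℝ) : ℂ)) * hth η θ y) := by
  have hs1 : ContDiff ℝ ∞ (deriv (sst η)) := by
    have := sst_contDiff h0 h1; rw [contDiff_infty_iff_deriv] at this; exact this.2
  rw [iteratedDeriv_succ, iteratedDeriv_one]
  have e : deriv (hth η θ) = fun y => -(Complex.I * ((θ * deriv (sst η) y : ℝ) : ℂ)) * hth η θ y :=
    funext fun y => (hth_deriv h0 h1 θ y).deriv
  rw [e]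
  have hs : HasDerivAt (deriv (sst η)) (deriv (deriv (sst η)) y) y :=
    (hs1.differentiable (by simp) y).hasDerivAt
  have h2 : HasDerivAt (fun y => -(Complex.I * ((θ * deriv (sst η) y : ℝ) : ℂ)))
      (-(Complex.I * ((θ * deriv (deriv (sst η)) y : ℝ) : ℂ))) y :=
    (((hs.const_mul θ).ofReal_comp).const_mul Complex.I).neg
  exact (h2.mul (hth_deriv h0 h1 θ y)).deriv

lemma hth_deriv2_le {η : ℝ} (h0 : 0 < η) (h1 : η ≤ 1 / 4) {C : ℝ} (hC1 : 1 ≤ C)
    (hC : ∀ y, |sst η y| ≤ C ∧ |deriv (sst η) y| ≤ C ∧ |deriv (deriv (sst η)) y| ≤ C) (θ y : ℝ) :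
    ‖iteratedDeriv 2 (hth η θ) y‖ ≤ C ^ 2 * (|θ| * (1 + |θ|)) := by
  rw [hth_deriv2 h0 h1]
  refine (norm_add_le _ _).trans ?_
  simp only [norm_mul, norm_neg, Complex.norm_I, one_mul, hth_norm, mul_one, Complex.norm_real,
    Real.norm_eq_abs, abs_mul]
  obtain ⟨-, b1, b2⟩ := hC y
  have hθ := abs_nonneg θ
  have c1 : |θ| * |deriv (deriv (sst η)) y| ≤ |θ| * C ^ 2 :=
    mul_le_mul_of_nonneg_left (b2.trans (by nlinarith)) hθ
  have c2 : |deriv (sst η) y| * |deriv (sst η) y| ≤ C ^ 2 := by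
    rw [sq]; exact mul_le_mul b1 b1 (abs_nonneg _) (by linarith)
  have c3 : |θ| * |deriv (sst η) y| * (|θ| * |deriv (sst η) y|) ≤ |θ| ^ 2 * C ^ 2 := by
    calc _ = |θ| ^ 2 * (|deriv (sst η) y| * |deriv (sst η) y|) := by ring
      _ ≤ _ := mul_le_mul_of_nonneg_left c2 (by positivity)
  calc _ ≤ |θ| * C ^ 2 + |θ| ^ 2 * C ^ 2 := add_le_add c1 c3
    _ = _ := by ring

end Pool.Agent.K1H11.NS
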