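import Pool.Agent.K1H11.NS.Fix2

open MeasureTheory Set Filter Topology
open scoped ENNReal NNReal

namespace Pool.Agent.K1H11.NS

/-- Solutions on the Fourier side. -/
structure Sol (c : ℝ) (a : Wt) (V : K → C3) (u : Fam) : Prop where
  cf : CF u
  z : ∀ t, u 0 t = 0
  sym : SymF u
  dom : ∃ b : K → ℝ, Summable (fun k => om a k * b k) ∧ ∀ k t, ‖u k t‖ ≤ b k
  l2 : LN (fun t => NW (Wa a) (at' u t)) ≠ ⊤
  eq : ∀ k t, u k t = Real.exp (-(c * sq k * max t 0)) • V k + Duh c (Bt u) k t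

end Pool.Agent.K1H11.NS
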