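import Pool.Agent.H459R3.NS.Phys2

/-!
# Absolutely convergent exponential sums
-/

open MeasureTheory Set Filter Topology
open scoped ENNReal NNReal

namespace Pool.Agent.K1H11.NS

open H459R3.NS (ee fc cube)

/-- `F` is an absolutely convergent exponential sum whose coefficients have absolute sum at most `M`. -/
def WB (F : (Fin 3 → ℝ) → ℂ) (M : ℝ) : Prop :=
  ∃ (ι : Type) (_ : Countable ι) (c : ι → ℂ) (κ : ι → (Fin 3 → ℤ)), Summable (fun i => ‖c i‖) ∧
    ∑' i, ‖c i‖ ≤ M ∧ ∀ x, F x = ∑' i, c i * ee (κ i) x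

lemma WB.nonneg {F : (Fin 3 → ℝ) → ℂ} {M : ℝ} (h : WB F M) : 0 ≤ M := by
  obtain ⟨ι, _, c, κ, h1, h2, h3⟩ := h
  exact (tsum_nonneg fun i => norm_nonneg _).trans h2

lemma WB.mono {F : (Fin 3 → ℝ) → ℂ} {M M' : ℝ} (h : WB F M) (hM : M ≤ M') : WB F M' := by
  obtain ⟨ι, i1, c, κ, h1, h2, h3⟩ := h
  exact ⟨ι, i1, c, κ, h1, h2.trans hM, h3⟩

lemma WB.congr {F G : (Fin 3 → ℝ) → ℂ} {M : ℝ} (h : WB F M) (hG : ∀ x, G x = F x) : WB G M := by
  obtain ⟨ι, i1, c, κ, h1, h2, h3⟩ := h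
  exact ⟨ι, i1, c, κ, h1, h2, fun x => (hG x).trans (h3 x)⟩

lemma WB_ee (a : ℂ) (k : Fin 3 → ℤ) : WB (fun x => a * ee k x) ‖a‖ :=
  ⟨Unit, inferInstance, fun _ => a, fun _ => k, (hasSum_fintype _).summable, by simp,
    fun x => by simp⟩

lemma WB.mul {F G : (Fin 3 → ℝ) → ℂ} {M M' : ℝ} (hF : WB F M) (hG : WB G M') :
    WB (fun x => F x * G x) (M * M') := by
  have hM := hF.nonneg
  obtain ⟨ι, i1, c, κ, h1, h2, h3⟩ := hF
  obtain ⟨ι', i1', c', κ', h1', h2', h3'⟩ := hG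
  refine ⟨ι × ι', inferInstance, fun p => c p.1 * c' p.2, fun p => κ p.1 + κ' p.2, ?_, ?_, ?_⟩
  · exact h1.mul_norm h1'
  · have e := tsum_mul_tsum_of_summable_norm (f := fun i => ‖c i‖) (g := fun i => ‖c' i‖)
      (by simpa using h1) (by simpa using h1')
    have e2 : ∑' p : ι × ι', ‖c p.1 * c' p.2‖ = (∑' i, ‖c i‖) * ∑' i, ‖c' i‖ := by
      rw [e]; exact tsum_congr fun p => norm_mul _ _
    rw [e2]
    exact mul_le_mul h2 h2' (tsum_nonneg fun _ => norm_nonneg _) hM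
  · intro x
    show F x * G x = ∑' p : ι × ι', c p.1 * c' p.2 * ee (κ p.1 + κ' p.2) x
    rw [h3 x, h3' x, tsum_mul_tsum_of_summable_norm]
    · refine tsum_congr fun p => ?_
      rw [H459R3.NS.ee_add_left]; ring
    · simpa [norm_mul, H459R3.NS.norm_ee] using h1
    · simpa [norm_mul, H459R3.NS.norm_ee] using h1'

lemma WB.tsum {J : Type} [Countable J] {F : J → (Fin 3 → ℝ) → ℂ} {M : J → ℝ} (h : ∀ j, WB (F j) (M j))
    (hM : Summable M) : WB (fun x => ∑' j, F j x) (∑' j, M j) := by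
  choose ι i1 c κ h1 h2 h3 using h
  have hs : Summable fun p : Σ j, ι j => ‖c p.1 p.2‖ := by
    rw [summable_sigma_of_nonneg fun _ => norm_nonneg _]
    exact ⟨h1, Summable.of_nonneg_of_le (fun j => tsum_nonneg fun _ => norm_nonneg _) h2 hM⟩
  refine ⟨Σ j, ι j, inferInstance, fun p => c p.1 p.2, fun p => κ p.1 p.2, hs, ?_, ?_⟩
  · rw [hs.tsum_sigma]
    exact Summable.tsum_le_tsum h2 hs.sigma hM
  · intro x
    have hs2 : Summable fun p : Σ j, ι j => c p.1 p.2 * ee (κ p.1 p.2) x := by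
      refine Summable.of_norm ?_
      simpa [norm_mul, H459R3.NS.norm_ee] using hs
    rw [hs2.tsum_sigma]
    exact tsum_congr fun j => h3 j x

lemma WB.add {F G : (Fin 3 → ℝ) → ℂ} {M M' : ℝ} (hF : WB F M) (hG : WB G M') :
    WB (fun x => F x + G x) (M + M') := by
  have h := WB.tsum (J := Bool) (F := fun b => bif b then F else G) (M := fun b => bif b then M else M')
    (by rintro (_ | _); exacts [hG, hF]) ((hasSum_fintype _).summable)
  simp only [tsum_bool] at h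
  refine (h.congr fun x => ?_).mono (le_of_eq ?_)
  · simp [add_comm]
  · simp [add_comm]

lemma WB.fc_hasSum {ι : Type} [Countable ι] {c : ι → ℂ} {κ : ι → (Fin 3 → ℤ)} (h1 : Summable (fun i => ‖c i‖))
    (k : Fin 3 → ℤ) :
    fc (fun x => ∑' i, c i * ee (κ i) x) k = ∑' i, c i * (if κ i = k then 1 else 0) := by
  unfold fc
  have hi : ∀ i, Integrable (fun x => c i * ee (κ i - k) x) (volume.restrict cube) := fun i =>
    (H459R3.NS.integrableOn_cube (H459R3.NS.ee_continuous _)).const_mul _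
  have hs : Summable fun i => ∫ x in cube, ‖c i * ee (κ i - k) x‖ := by
    have e : ∀ i, ∫ x in cube, ‖c i * ee (κ i - k) x‖ = ‖c i‖ := by
      intro i
      simp only [norm_mul, H459R3.NS.norm_ee, mul_one]
      rw [setIntegral_const]
      simp [Measure.real, H459R3.NS.volume_cube]
    simp_rw [e]
    exact h1
  have h := (hasSum_integral_of_summable_integral_norm hi hs).tsum_eq
  have e1 : ∀ i, ∫ x in cube, c i * ee (κ i - k) x = c i * (if κ i = k then 1 else 0) := by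
    intro i
    rw [integral_const_mul, H459R3.NS.integral_ee]
    simp only [sub_eq_zero]
  simp_rw [e1] at h
  rw [h]
  refine integral_congr_ae (Eventually.of_forall fun x => ?_)
  show ee (-k) x * (∑' i, c i * ee (κ i) x) = ∑' i, c i * ee (κ i - k) x
  rw [← tsum_mul_left]
  refine tsum_congr fun i => ?_
  rw [sub_eq_add_neg, H459R3.NS.ee_add_left]; ring

lemma WB.fc_le {F : (Fin 3 → ℝ) → ℂ} {M : ℝ} (h : WB F M) : ∑' k, ‖fc F k‖ₑ ≤ ENNReal.ofReal M := by
  obtain ⟨ι, i1, c, κ, h1, h2, h3⟩ := h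
  have hF : F = fun x => ∑' i, c i * ee (κ i) x := funext h3
  have e : ∀ k, ‖fc F k‖ₑ ≤ ∑' i, ‖c i‖ₑ * (if κ i = k then 1 else 0) := by
    intro k
    rw [hF, WB.fc_hasSum h1]
    refine enorm_tsum_le_tsum_enorm.trans (ENNReal.tsum_le_tsum fun i => ?_)
    rw [enorm_mul]
    split_ifs <;> simp
  calc ∑' k, ‖fc F k‖ₑ ≤ ∑' k, ∑' i, ‖c i‖ₑ * (if κ i = k then 1 else 0) := ENNReal.tsum_le_tsum e
    _ = ∑' i, ∑' k, ‖c i‖ₑ * (if κ i = k then 1 else 0) := ENNReal.tsum_comm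
    _ = ∑' i, ‖c i‖ₑ := by
        refine tsum_congr fun i => ?_
        rw [ENNReal.tsum_mul_left, tsum_eq_single (κ i) (fun k hk => if_neg (Ne.symm hk)), if_pos rfl, mul_one]
    _ = ENNReal.ofReal (∑' i, ‖c i‖) := by
        rw [ENNReal.ofReal_tsum_of_nonneg (fun _ => norm_nonneg _) h1]
        exact tsum_congr fun i => (ofReal_norm _).symm
    _ ≤ _ := ENNReal.ofReal_le_ofReal h2

lemma WB.fc_le' {F : (Fin 3 → ℝ) → ℂ} {M : ℝ} (h : WB F M) :
    Summable (fun k => ‖fc F k‖) ∧ ∑' k, ‖fc F k‖ ≤ M := by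
  have h1 := h.fc_le
  have hs : Summable (fun k => ‖fc F k‖) := by
    have h2 : ∑' k, ENNReal.ofReal ‖fc F k‖ ≠ ∞ := by
      refine ne_top_of_le_ne_top ENNReal.ofReal_ne_top (le_trans (le_of_eq ?_) h1)
      exact tsum_congr fun k => ofReal_norm _
    have h3 := ENNReal.summable_toReal h2
    simpa [ENNReal.toReal_ofReal] using h3
  refine ⟨hs, ?_⟩
  rw [← ENNReal.ofReal_le_ofReal_iff h.nonneg, ENNReal.ofReal_tsum_of_nonneg (fun _ => norm_nonneg _) hs]
  refine le_trans (le_of_eq ?_) h1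
  exact tsum_congr fun k => ofReal_norm _

end Pool.Agent.K1H11.NS
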