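import Pool.Agent.K1H11.NS.Wien
import Pool.Agent.Helper420.PB.A1

/-!
# Absolutely convergent exponential sums: functions of one variable
-/

open MeasureTheory Set Filter Topology
open scoped ENNReal NNReal

namespace Pool.Agent.K1H11.NS

open H459R3.NS (ee cube)

/-- `∑ 1 / n²` over the integers. -/
noncomputable def ZZ : ℝ := ∑' n : ℤ, 1 / (n : ℝ) ^ 2

lemma ZZ_nonneg : 0 ≤ ZZ := tsum_nonneg fun n => by positivity

lemma fc1_le {f : ℝ → ℂ} {A : ℝ} (hA : ∀ t, ‖f t‖ ≤ A) (n : ℤ) : ‖Helper420.PB.fc 1 f n‖ ≤ A := by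
  unfold Helper420.PB.fc
  rw [norm_mul]
  have h1 : ‖∫ t in (0 : ℝ)..1, Complex.exp (-(2 * Real.pi * Complex.I * n * t / (1 : ℝ))) * f t‖
      ≤ A * |(1 : ℝ) - 0| := by
    apply intervalIntegral.norm_integral_le_of_norm_le_const
    intro t _
    rw [norm_mul]
    have e1 : ‖Complex.exp (-(2 * Real.pi * Complex.I * n * t / (1 : ℝ)))‖ = 1 := by
      have : (-(2 * Real.pi * Complex.I * n * t / (1 : ℝ)) : ℂ) =
        ((-(2 * Real.pi * n * t) : ℝ) : ℂ) * Complex.I := by push_cast; ring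
      rw [this, Complex.norm_exp_ofReal_mul_I]
    rw [e1, one_mul]
    exact hA t
  simpa using h1

lemma ee_single' (j : Fin 3) (m : ℤ) (x : Fin 3 → ℝ) :
    ee (Pi.single j m) x = Complex.exp (2 * Real.pi * Complex.I * (m * x j : ℝ)) := by
  unfold ee H459R3.NS.ph
  congr 3
  rw [Finset.sum_eq_single j]
  · simp
  · intro b _ hb; simp [hb]
  · simp

lemma WB_one (j : Fin 3) (N : ℤ) {h : ℝ → ℂ} (hh : ContDiff ℝ 2 h) (hp : ∀ t, h (t + 1) = h t) {A B : ℝ}
    (hA : ∀ t, ‖h t‖ ≤ A) (hB : ∀ t, ‖iteratedDeriv 2 h t‖ ≤ B) :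
    WB (fun x => h (N * x j)) (A + ZZ * B) := by
  obtain ⟨hs, hser⟩ := Helper420.PB.fc_series one_pos hh hp
  have hA0 : 0 ≤ A := (norm_nonneg _).trans (hA 0)
  have hB0 : 0 ≤ B := (norm_nonneg _).trans (hB 0)
  have hZ : Summable fun n : ℤ => 1 / (n : ℝ) ^ 2 := Real.summable_one_div_int_pow.mpr (by norm_num)
  refine ⟨ℤ, inferInstance, fun n => Helper420.PB.fc 1 h n, fun n => Pi.single j (n * N), hs, ?_, ?_⟩
  · have hb : ∀ n : ℤ, ‖Helper420.PB.fc 1 h n‖ ≤ (if n = 0 then A else 0) + 1 / (n : ℝ) ^ 2 * B := by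
      intro n
      by_cases hn : n = 0
      · subst hn
        simpa using fc1_le hA 0
      · rw [if_neg hn, zero_add]
        have h2 := fc1_le hB n
        rw [Helper420.PB.fc_deriv2 one_pos hh hp, norm_mul, norm_neg, norm_pow, Complex.norm_real,
          Real.norm_eq_abs, sq_abs] at h2
        have hn' : (0 : ℝ) < (n : ℝ) ^ 2 := by
          have : (n : ℝ) ≠ 0 := by exact_mod_cast hn
          positivity
        rw [one_div, inv_mul_eq_div, le_div_iff₀ hn']
        refine le_trans ?_ h2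
        rw [div_one, mul_comm]
        refine mul_le_mul_of_nonneg_right ?_ (norm_nonneg _)
        have : (2 * Real.pi * n) ^ 2 = (4 * Real.pi ^ 2) * (n : ℝ) ^ 2 := by ring
        rw [this]
        have : 1 ≤ 4 * Real.pi ^ 2 := by nlinarith [Real.pi_gt_three]
        nlinarith
    have hs1 : Summable fun n : ℤ => (if n = 0 then A else 0) := (hasSum_ite_eq 0 A).summable
    calc ∑' n, ‖Helper420.PB.fc 1 h n‖ ≤ ∑' n : ℤ, ((if n = 0 then A else 0) + 1 / (n : ℝ) ^ 2 * B) :=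
          Summable.tsum_le_tsum hb hs (hs1.add (hZ.mul_right B))
      _ = A + ZZ * B := by
          rw [hs1.tsum_add (hZ.mul_right B), (hasSum_ite_eq 0 A).tsum_eq, tsum_mul_right, ZZ]
  · intro x
    have h1 := (hser (N * x j)).tsum_eq
    show h (N * x j) = ∑' n : ℤ, Helper420.PB.fc 1 h n * ee (Pi.single j (n * N)) x
    rw [← h1]
    refine tsum_congr fun n => ?_
    rw [ee_single']
    congr 2
    push_cast
    ring

end Pool.Agent.K1H11.NS
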