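import Pool.Agent.K1H11.NS.Wien1
import Pool.Agent.K1H11.NS.Stair
import Pool.Agent.K1H11.NS.Summ

/-!
# The change of a Fourier series under the staircase
-/

open MeasureTheory Set Filter Topology
open scoped ENNReal NNReal

namespace Pool.Agent.K1H11.NS

open H459R3.NS (ee cube S)

lemma two_le_inf : (2 : WithTop ℕ∞) ≤ ((⊤ : ℕ∞) : WithTop ℕ∞) := by
  have : ((2 : ℕ∞) : WithTop ℕ∞) ≤ ((⊤ : ℕ∞) : WithTop ℕ∞) := WithTop.coe_le_coe.2 le_top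
  exact this

lemma nk_le_pw' (k : K) : nk k ≤ pw k := by
  have := nk_le_l1 k
  unfold pw; linarith

/-- The staircase with steps of length `1/N` in each coordinate. -/
noncomputable def PhiN (η : ℝ) (N : ℕ) (x : Fin 3 → ℝ) : Fin 3 → ℝ := fun j => phi η (N * x j) / N

lemma ee_PhiN (η : ℝ) {N : ℕ} (hN : 0 < N) (l : Fin 3 → ℤ) (x : Fin 3 → ℝ) :
    ee l (PhiN η N x) = ee l x * ∏ j, hth η (2 * Real.pi * l j / N) (N * x j) := by
  have hN' : (N : ℂ) ≠ 0 := by exact_mod_cast hN.ne'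
  unfold ee H459R3.NS.ph hth PhiN sst
  rw [← Complex.exp_sum, ← Complex.exp_add]
  congr 1
  push_cast
  rw [Finset.mul_sum, Finset.mul_sum, ← Finset.sum_add_distrib]
  refine Finset.sum_congr rfl fun j _ => ?_
  field_simp
  ring

lemma WB_h {η : ℝ} (h0 : 0 < η) (h1 : η ≤ 1 / 4) {C : ℝ} (hC1 : 1 ≤ C)
    (hC : ∀ y, |sst η y| ≤ C ∧ |deriv (sst η) y| ≤ C ∧ |deriv (deriv (sst η)) y| ≤ C)
    (j : Fin 3) (N : ℕ) {θ τ : ℝ} (hθ : |θ| ≤ τ) :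
    WB (fun x => hth η θ (N * x j)) ((1 + C + ZZ * C ^ 2) * (1 + τ) ^ 2) := by
  have h := WB_one j (N : ℤ) (((hth_contDiff h0 h1 θ)).of_le two_le_inf) (hth_per η θ)
    (fun t => (hth_norm η θ t).le) (fun t => hth_deriv2_le h0 h1 hC1 hC θ t)
  push_cast at h
  refine h.mono ?_
  have hZ := ZZ_nonneg
  have hθ0 := abs_nonneg θ
  have e1 : |θ| * (1 + |θ|) ≤ (1 + τ) ^ 2 := by nlinarith
  have e2 : (1 : ℝ) ≤ (1 + τ) ^ 2 := by nlinarith
  have e3 : ZZ * (C ^ 2 * (|θ| * (1 + |θ|))) ≤ ZZ * (C ^ 2 * (1 + τ) ^ 2) :=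
    mul_le_mul_of_nonneg_left (mul_le_mul_of_nonneg_left e1 (by positivity)) hZ
  nlinarith [mul_nonneg (by linarith : (0 : ℝ) ≤ C) (by linarith : 0 ≤ (1 + τ) ^ 2)]

lemma WB_h1 {η : ℝ} (h0 : 0 < η) (h1 : η ≤ 1 / 4) {C : ℝ} (hC1 : 1 ≤ C)
    (hC : ∀ y, |sst η y| ≤ C ∧ |deriv (sst η) y| ≤ C ∧ |deriv (deriv (sst η)) y| ≤ C)
    (j : Fin 3) (N : ℕ) {θ τ : ℝ} (hθ : |θ| ≤ τ) :
    WB (fun x => 1 - hth η θ (N * x j)) ((1 + C + ZZ * C ^ 2) * (τ * (1 + τ))) := by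
  have hc : ContDiff ℝ 2 (fun t => 1 - hth η θ t) :=
    contDiff_const.sub ((hth_contDiff h0 h1 θ).of_le two_le_inf)
  have h2 : ∀ t, iteratedDeriv 2 (fun t => 1 - hth η θ t) t = - iteratedDeriv 2 (hth η θ) t := by
    intro t
    rw [iteratedDeriv_succ, iteratedDeriv_one, iteratedDeriv_succ, iteratedDeriv_one]
    have e : deriv (fun t => 1 - hth η θ t) = fun t => - deriv (hth η θ) t := by
      funext s
      rw [deriv_const_sub]
    rw [e, deriv.fun_neg]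
  have h := WB_one (h := fun t => 1 - hth η θ t) j (N : ℤ) hc (fun t => by simp only [hth_per])
    (A := |θ| * C) (fun t => (hth_sub_one η θ t).trans (mul_le_mul_of_nonneg_left (hC t).1 (abs_nonneg _)))
    (B := C ^ 2 * (|θ| * (1 + |θ|)))
    (fun t => by rw [h2, norm_neg]; exact hth_deriv2_le h0 h1 hC1 hC θ t)
  push_cast at h
  refine h.mono ?_
  have hZ := ZZ_nonneg
  have hθ0 := abs_nonneg θ
  have e1 : |θ| * (1 + |θ|) ≤ τ * (1 + τ) := by nlinarith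
  have e3 : ZZ * (C ^ 2 * (|θ| * (1 + |θ|))) ≤ ZZ * (C ^ 2 * (τ * (1 + τ))) :=
    mul_le_mul_of_nonneg_left (mul_le_mul_of_nonneg_left e1 (by positivity)) hZ
  have e4 : |θ| * C ≤ C * (τ * (1 + τ)) := by
    have : |θ| ≤ τ * (1 + τ) := by nlinarith
    nlinarith
  have e5 : 0 ≤ τ * (1 + τ) := by
    have : 0 ≤ τ := hθ0.trans hθ
    positivity
  nlinarith

lemma WB_prod {η : ℝ} (h0 : 0 < η) (h1 : η ≤ 1 / 4) {C : ℝ} (hC1 : 1 ≤ C)
    (hC : ∀ y, |sst η y| ≤ C ∧ |deriv (sst η) y| ≤ C ∧ |deriv (deriv (sst η)) y| ≤ C)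
    (N : ℕ) {θ : Fin 3 → ℝ} {τ : ℝ} (hθ : ∀ j, |θ j| ≤ τ) :
    WB (fun x => 1 - ∏ j, hth η (θ j) (N * x j)) (3 * (1 + C + ZZ * C ^ 2) ^ 3 * (τ * (1 + τ) ^ 5)) := by
  have a := fun j => WB_h h0 h1 hC1 hC j N (hθ j)
  have b := fun j => WB_h1 h0 h1 hC1 hC j N (hθ j)
  have h := ((b 0).add ((a 0).mul (b 1))).add (((a 0).mul (a 1)).mul (b 2))
  refine (h.congr fun x => ?_).mono ?_
  · rw [Fin.prod_univ_three]; ring
  · have hZ := ZZ_nonneg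
    have hτ : 0 ≤ τ := (abs_nonneg _).trans (hθ 0)
    set K := 1 + C + ZZ * C ^ 2 with hK
    have hK1 : 1 ≤ K := by
      have : 0 ≤ ZZ * C ^ 2 := by positivity
      linarith
    have e1 : (1 : ℝ) ≤ 1 + τ := by linarith
    have p2 : (1 : ℝ) ≤ (1 + τ) ^ 2 := one_le_pow₀ e1
    have p4 : (1 + τ) ^ 2 ≤ (1 + τ) ^ 4 := pow_le_pow_right₀ e1 (by norm_num)
    have q2 : K ≤ K ^ 3 := by
      calc K = K ^ 1 := (pow_one K).symm
        _ ≤ K ^ 3 := pow_le_pow_right₀ hK1 (by norm_num)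
    have q3 : K ^ 2 ≤ K ^ 3 := pow_le_pow_right₀ hK1 (by norm_num)
    have w : 0 ≤ τ * (1 + τ) := by positivity
    calc K * (τ * (1 + τ)) + K * (1 + τ) ^ 2 * (K * (τ * (1 + τ)))
          + K * (1 + τ) ^ 2 * (K * (1 + τ) ^ 2) * (K * (τ * (1 + τ)))
        = (K * 1 + K ^ 2 * (1 + τ) ^ 2 + K ^ 3 * (1 + τ) ^ 4) * (τ * (1 + τ)) := by ring
      _ ≤ (K ^ 3 * (1 + τ) ^ 4 + K ^ 3 * (1 + τ) ^ 4 + K ^ 3 * (1 + τ) ^ 4) * (τ * (1 + τ)) := by
          refine mul_le_mul_of_nonneg_right (add_le_add (add_le_add ?_ ?_) le_rfl) w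
          · exact mul_le_mul q2 (p2.trans p4) zero_le_one (by positivity)
          · exact mul_le_mul q3 p4 (by positivity) (by positivity)
      _ = _ := by ring

theorem WB_diff {η : ℝ} (h0 : 0 < η) (h1 : η ≤ 1 / 4) : ∃ K : ℝ, 0 ≤ K ∧ ∀ (N : ℕ), 0 < N →
    ∀ b : (Fin 3 → ℤ) → ℂ, Summable (fun l => pw l ^ 6 * ‖b l‖) →
      WB (fun x => S b x - S b (PhiN η N x)) (K / N * ∑' l, pw l ^ 6 * ‖b l‖) := by
  obtain ⟨C, hC1, hC⟩ := sst_bounds h0 h1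
  have hZ := ZZ_nonneg
  set K := 1 + C + ZZ * C ^ 2 with hK
  have hK1 : 1 ≤ K := by
    have : 0 ≤ ZZ * C ^ 2 := by positivity
    linarith
  refine ⟨3 * K ^ 3 * (7 * 8 ^ 5), by positivity, fun N hN b hb => ?_⟩
  have hN1 : (1 : ℝ) ≤ N := by exact_mod_cast hN
  have hbs : Summable b := by
    refine Summable.of_norm (Summable.of_nonneg_of_le (fun _ => norm_nonneg _) (fun l => ?_) hb)
    exact le_mul_of_one_le_left (norm_nonneg _) (one_le_pow₀ (one_le_pw l))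
  have key : ∀ l : Fin 3 → ℤ, WB (fun x => b l * ee l x * (1 - ∏ j, hth η (2 * Real.pi * l j / N) (N * x j)))
      (3 * K ^ 3 * (7 * 8 ^ 5) / N * (pw l ^ 6 * ‖b l‖)) := by
    intro l
    have hp := one_le_pw l
    have hτ : ∀ j, |2 * Real.pi * l j / N| ≤ 7 * pw l / N := by
      intro j
      rw [abs_div, abs_mul, abs_of_pos (by positivity : 0 < 2 * Real.pi), abs_of_pos (by linarith : (0 : ℝ) < N)]
      have h2 : |(l j : ℝ)| ≤ pw l := (abs_le_nk l j).trans (nk_le_pw' l)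
      gcongr
      linarith [Real.pi_lt_four, Real.pi_lt_d2]
    have hh := (WB_ee (b l) l).mul (WB_prod h0 h1 hC1 hC N hτ)
    refine hh.mono ?_
    rw [← hK]
    have e1 : 7 * pw l / N ≤ 7 * pw l := div_le_self (by positivity) hN1
    have e2 : 1 + 7 * pw l / N ≤ 8 * pw l := by linarith
    have e3 : (1 + 7 * pw l / N) ^ 5 ≤ (8 * pw l) ^ 5 := pow_le_pow_left₀ (by positivity) e2 5
    calc ‖b l‖ * (3 * K ^ 3 * (7 * pw l / N * (1 + 7 * pw l / N) ^ 5))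
        ≤ ‖b l‖ * (3 * K ^ 3 * (7 * pw l / N * (8 * pw l) ^ 5)) := by gcongr
      _ = _ := by ring
  have h := WB.tsum key (hb.mul_left _)
  rw [tsum_mul_left] at h
  refine h.congr fun x => ?_
  unfold S
  rw [← Summable.tsum_sub (H459R3.NS.summable_term hbs x) (H459R3.NS.summable_term hbs _)]
  refine tsum_congr fun l => ?_
  rw [ee_PhiN η hN]; ring

end Pool.Agent.K1H11.NS
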